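import Pool.Agent.Helper98.LCY.LocB

/-! Separatedness of the surfaces (A14) (MP_f7e214_ag). -/

open Polynomial

namespace LCY

noncomputable section

variable {L : Type} [Field L] [Algebra ℂ L]

namespace H98

/-- Two points of a blow-up: separatedness. -/
theorem st_sep {P : Coord L} {o o' : Option ℂ} {v : DVal L} (hc : Centred (P.st o).loc v)
    (hn : Nn (P.st o').loc v) : o = o' := by
  have px := P.x_ne
  have py := P.y_ne
  have hyx : P.y / P.x ≠ 0 := div_ne_zero py px
  have hxy : P.x / P.y ≠ 0 := div_ne_zero px py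
  have hinv : v.v (P.x / P.y) = - v.v (P.y / P.x) := by
    rw [← v.map_inv hyx, inv_div]
  rw [centred_iff] at hc
  cases o with
  | none =>
    cases o' with
    | none => rfl
    | some c' =>
      exfalso
      have h1 := hc.2
      rw [P.st_none_y, hinv] at h1
      have h2 := hn _ (mx_loc (mx_y (P.st (some c'))))
      rw [P.st_some_y] at h2
      have h3 := v.int_add h2 (v.int_const c')
      rw [sub_add_cancel] at h3
      have := h3.resolve_left hyx
      omega
  | some c =>
    rw [P.st_some_x, P.st_some_y] at hc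
    have hne : P.y / P.x - algebraMap ℂ L c ≠ 0 := by
      rw [← P.st_some_y]; exact (P.st (some c)).y_ne
    cases o' with
    | some c' =>
      by_contra hcc
      have hcc' : c' - c ≠ 0 := fun h => hcc (by rw [sub_eq_zero.1 h])
      have h1 : (P.st (some c')).Mx ((P.y / P.x - algebraMap ℂ L c) -
          algebraMap ℂ L (c' - c)) := by
        have := mx_y (P.st (some c'))
        rw [P.st_some_y] at this
        have e : P.y / P.x - algebraMap ℂ L c - algebraMap ℂ L (c' - c) =
            P.y / P.x - algebraMap ℂ L c' := by rw [map_sub]; ring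
        rwa [e]
      have h2 := hn _ (unit_of_mx hcc' h1).2.2
      have h3 := h2.resolve_left (inv_ne_zero hne)
      rw [v.map_inv hne] at h3
      omega
    | none =>
      exfalso
      have h1 : (P.st none).Mx ((1 - algebraMap ℂ L c * (P.x / P.y)) - algebraMap ℂ L 1) := by
        have := mx_y (P.st none)
        rw [P.st_none_y] at this
        rw [RingHom.map_one]
        have e : (1 : L) - algebraMap ℂ L c * (P.x / P.y) - 1 =
            algebraMap ℂ L (-c) * (P.x / P.y) := by rw [map_neg]; ring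
        rw [e]
        exact mx_mul' ((P.st none).loc.algebraMap_mem _) this
      have h2 := (unit_of_mx one_ne_zero h1)
      have h3 := (hn _ h2.2.2).resolve_left (inv_ne_zero h2.1)
      have h4 := hn _ (mx_loc (mx_y (P.st none)))
      rw [P.st_none_y] at h4
      have h5 := h4.resolve_left hxy
      rw [v.map_inv h2.1] at h3
      have e : (1 : L) - algebraMap ℂ L c * (P.x / P.y) =
          (P.y / P.x - algebraMap ℂ L c) * (P.x / P.y) := by
        field_simp
      rw [e, v.map_mul _ _ hne hxy] at h3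
      omega

theorem next_loc_le {P Q : Coord L} (h : Next P.loc Q.loc) : Q.Mx P.x ∧ Q.Mx P.y := by
  obtain ⟨P', Q', hP, hQ, hx, hy⟩ := h
  have h1 : Q.Mx P'.x := by
    rw [← mx_congr hQ, ← hx]; exact mx_x Q'
  have h2 : Q.Mx P'.y := by
    have p'x := P'.x_ne
    have e : P'.y = Q'.x * Q'.y := by rw [hx, hy]; field_simp
    rw [← mx_congr hQ, e]
    exact mx_mul (mx_x Q') (mx_loc (mx_y Q'))
  exact ⟨mx_trans h1 h2 ((mx_congr hP).2 (mx_x P)), mx_trans h1 h2 ((mx_congr hP).2 (mx_y P))⟩

/-- Every point of a surface is given by coordinates. -/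
theorem surf_coord {S : Coord L} {k : ℕ} {R : Fin k → Subalgebra ℂ L} {j : ℕ}
    {R' : Subalgebra ℂ L} (h : R' ∈ surf S R j) : ∃ Q : Coord L, Q.loc = R' := by
  induction j generalizing R' with
  | zero =>
    obtain ⟨A, Q, -, hQ, -⟩ := h
    exact ⟨Q, hQ⟩
  | succ j ih =>
    by_cases hj : j < k
    · rw [surf, dif_pos hj] at h
      rcases h with h | h
      · exact ih h.1
      · obtain ⟨P, Q, -, hQ, -⟩ := h
        exact ⟨Q, hQ⟩
    · rw [surf, dif_neg hj] at h
      exact ih h

theorem nn_of_next {P Q : Coord L} {v : DVal L} (h : Next P.loc Q.loc) (hn : Nn Q.loc v) :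
    Nn P.loc v := by
  have h1 := next_loc_le h
  exact fun z hz => hn z (loc_le h1.1 h1.2 hz)

theorem centred_of_next {P Q : Coord L} {v : DVal L} (h : Next P.loc Q.loc)
    (hn : Centred Q.loc v) : Centred P.loc v := by
  have h1 := next_loc_le h
  rw [centred_iff]
  exact ⟨(centred_mx hn h1.1).resolve_left P.x_ne, (centred_mx hn h1.2).resolve_left P.y_ne⟩

/-- Separatedness of the blow-up. -/
theorem sep_blow {X : Set (Subalgebra ℂ L)} (hX : ∀ R ∈ X, ∃ Q : Coord L, Q.loc = R)
    (hs : ∀ R ∈ X, ∀ R' ∈ X, ∀ v : DVal L, Centred R v → Nn R' v → R = R')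
    {R0 : Subalgebra ℂ L} (h0 : R0 ∈ X) {R R' : Subalgebra ℂ L} (hR : R ∈ blow X R0)
    (hR' : R' ∈ blow X R0) {v : DVal L} (hc : Centred R v) (hn : Nn R' v) : R = R' := by
  obtain ⟨P, rfl⟩ := hX _ h0
  rcases hR with hR | hR
  · rcases hR' with hR' | hR'
    · exact hs R hR.1 R' hR'.1 v hc hn
    · exfalso
      have hR'' := hR'
      obtain ⟨o, rfl⟩ := next_iff.1 hR'
      have := nn_of_next (next_iff.2 ⟨o, rfl⟩) hn
      exact hR.2 (hs R hR.1 _ h0 v hc this)
  · obtain ⟨o, rfl⟩ := next_iff.1 hR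
    rcases hR' with hR' | hR'
    · exfalso
      have := centred_of_next (next_iff.2 ⟨o, rfl⟩) hc
      exact hR'.2 (hs _ h0 R' hR'.1 v this hn).symm
    · obtain ⟨o', rfl⟩ := next_iff.1 hR'
      rw [st_sep hc hn]

/-- Separatedness of the surfaces. -/
theorem sep_surf {S : Coord L} {k : ℕ} {R : Fin k → Subalgebra ℂ L}
    (hv : ∀ i : Fin k, R i ∈ surf S R i) (j : ℕ) : ∀ R1 ∈ surf S R j, ∀ R2 ∈ surf S R j,
    ∀ v : DVal L, Centred R1 v → Nn R2 v → R1 = R2 := by
  induction j with
  | zero => exact fun R1 h1 R2 h2 v hc hn => sep_plane h1 h2 hc hn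
  | succ j ih =>
    by_cases hj : j < k
    · intro R1 h1 R2 h2 v hc hn
      rw [surf, dif_pos hj] at h1 h2
      exact sep_blow (fun R hR => surf_coord hR) ih (hv ⟨j, hj⟩) h1 h2 hc hn
    · rw [surf, dif_neg hj]
      exact ih

end H98

/-- A14: the surface is separated. -/
theorem PStr.sep {k : ℕ} (T : PStr L k) {R R' : Subalgebra ℂ L} (hR : R ∈ T.X) (hR' : R' ∈ T.X)
    {v : DVal L} (hc : Centred R v) (hn : ∀ z ∈ R', v.Int z) : R = R' :=
  H98.sep_surf T.valid k R hR R' hR' v hc hn

end

end LCY
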