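import Pool.Agent.Helper98.LCY.LocE
import Pool.Agent.Helper82.LCY.Plane
import Pool.Agent.Helper81.LCY.RowsA

/-! Completeness of the surfaces: A15 (MP_f7e214_ag). -/

open Polynomial

namespace LCY

noncomputable section

variable {L : Type} [Field L] [Algebra ℂ L]

namespace H98

open H62

/-- Every proper ideal has a zero. -/
theorem exists_zero {I : Ideal ℂ[X][X]} (hI : I ≠ ⊤) :
    ∃ (φ : ℂ[X][X] →ₐ[ℂ] ℂ), ∀ f ∈ I, φ f = 0 := by
  obtain ⟨M, hM, hle⟩ := Ideal.exists_le_maximal I hI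
  let _ : Field (ℂ[X][X] ⧸ M) := Ideal.Quotient.field M
  have h0 : Algebra.FiniteType ℂ ℂ[X][X] :=
    Algebra.FiniteType.trans (S := ℂ[X]) inferInstance inferInstance
  have h1 : Algebra.FiniteType ℂ (ℂ[X][X] ⧸ M) :=
    Algebra.FiniteType.of_surjective (Ideal.Quotient.mkₐ ℂ M) (Ideal.Quotient.mkₐ_surjective ℂ M)
  have h2 : Module.Finite ℂ (ℂ[X][X] ⧸ M) :=
    finite_of_finite_type_of_isJacobsonRing ℂ (ℂ[X][X] ⧸ M)
  have h3 : Function.Bijective (algebraMap ℂ (ℂ[X][X] ⧸ M)) :=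
    IsAlgClosed.algebraMap_bijective_of_isIntegral
  let e : ℂ ≃ₐ[ℂ] (ℂ[X][X] ⧸ M) := AlgEquiv.ofBijective (Algebra.ofId ℂ _) h3
  refine ⟨e.symm.toAlgHom.comp (Ideal.Quotient.mkₐ ℂ M), fun f hf => ?_⟩
  change e.symm (Ideal.Quotient.mk M f) = 0
  rw [Ideal.Quotient.eq_zero_iff_mem.2 (hle hf), map_zero]

/-- A homomorphism to the constants is the evaluation. -/
theorem hom_eq (φ : ℂ[X][X] →ₐ[ℂ] ℂ) (f : ℂ[X][X]) :
    cf (trl (φ (C X)) (φ X) f) (0, 0) = φ f := by
  have h1 : ∀ q : ℂ[X][X], cf q (0, 0) = (q.eval 0).eval 0 := by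
    intro q
    rw [cf, coeff_zero_eq_eval_zero, coeff_zero_eq_eval_zero]
  have h2 : ∀ p : ℂ[X], φ (C p) = p.eval (φ (C X)) := by
    intro p
    have h3 : φ.comp (Algebra.ofId ℂ[X] ℂ[X][X] |>.restrictScalars ℂ) =
        Polynomial.aeval (φ (C X)) := by
      apply Polynomial.algHom_ext
      rw [aeval_X]
      rfl
    have h4 := DFunLike.congr_fun h3 p
    rw [coe_aeval_eq_eval] at h4
    exact h4
  rw [h1, trl, eval_comp]
  simp only [eval_add, eval_X, eval_C, zero_add]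
  induction f using Polynomial.induction_on' with
  | add p q hp hq =>
    rw [Polynomial.map_add, eval_add, eval_add, hp, hq, map_add]
  | monomial n a =>
    rw [Polynomial.map_monomial, eval_monomial, ← C_mul_X_pow_eq_monomial, map_mul, map_pow]
    simp
    exact Or.inl (h2 a).symm

/-- If both coordinates are integral then the valuation is nonnegative on the local ring of a
point. -/
theorem exists_point (U : Coord L) {v : DVal L} (hx : v.Int U.x) (hy : v.Int U.y) :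
    ∃ (a b : ℂ) (Q : Coord L), Q.x = U.x - algebraMap ℂ L a ∧ Q.y = U.y - algebraMap ℂ L b ∧
      Nn Q.loc v := by
  let I : Ideal ℂ[X][X] :=
    { carrier := {f | v.Pos (ev U.x U.y f)}
      zero_mem' := Or.inl (map_zero _)
      add_mem' := fun {a b} ha hb => by
        change v.Pos (ev U.x U.y (a + b))
        rw [map_add]; exact v.pos_add ha hb
      smul_mem' := fun c a ha => by
        change v.Pos (ev U.x U.y (c * a))
        rw [map_mul, mul_comm]; exact v.pos_mul_int ha (v.int_ev hx hy c) }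
  have hI : I ≠ ⊤ := by
    intro h
    have h1 : (1 : ℂ[X][X]) ∈ I := by rw [h]; trivial
    have h2 : v.Pos (ev U.x U.y 1) := h1
    rw [map_one] at h2
    exact v.not_pos_one h2
  obtain ⟨φ, hφ⟩ := exists_zero hI
  obtain ⟨Q, h1, h2⟩ := U.trans (φ (C X)) (φ X)
  refine ⟨φ (C X), φ X, Q, h1, h2, ?_⟩
  have hQx : v.Int Q.x := by rw [h1]; exact v.int_sub hx (v.int_const _)
  have hQy : v.Int Q.y := by rw [h2]; exact v.int_sub hy (v.int_const _)
  rintro z ⟨f, g, hg, rfl⟩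
  have hf := v.int_ev hQx hQy f
  have hg1 := v.int_ev hQx hQy g
  have hg0 : ev Q.x Q.y g ≠ 0 := Q.ne (ne_of_cf hg)
  have hgv : v.v (ev Q.x Q.y g) = 0 := by
    by_contra hne
    have hpos : v.Pos (ev Q.x Q.y g) := by
      right
      have := hg1.resolve_left hg0
      omega
    -- the polynomial in the coordinates U
    have h3 : ev U.x U.y (trl (-(φ (C X))) (-(φ X)) g) = ev Q.x Q.y g := by
      have := ev_trl Q.x Q.y (-(φ (C X))) (-(φ X)) g
      rw [← this]
      congr 2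
      · rw [h1, map_neg]; ring
      · rw [h2, map_neg]; ring
    rw [← h3] at hpos
    have h4 := hφ _ hpos
    rw [← hom_eq φ] at h4
    have h5 : trl (φ (C X)) (φ X) (trl (-(φ (C X))) (-(φ X)) g) = g := by
      apply sub_eq_zero.1
      apply Q.inj
      rw [map_sub, sub_eq_zero]
      have h6 := ev_trl U.x U.y (φ (C X)) (φ X) (trl (-(φ (C X))) (-(φ X)) g)
      rw [← h1, ← h2] at h6
      rw [h6, h3]
    rw [h5] at h4
    exact hg h4
  rcases hf with hf | hf
  · left; rw [hf, zero_div]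
  · by_cases hf0 : ev Q.x Q.y f = 0
    · left; rw [hf0, zero_div]
    · right
      rw [v.map_div hf0 hg0, hgv]
      omega

theorem nn_const {Q : Coord L} {v : DVal L} (hn : Nn Q.loc v) {z : L} {a : ℂ}
    (hz : Q.x = z - algebraMap ℂ L a) (hp : 0 < v.v z) : a = 0 := by
  by_contra ha
  have h1 : Q.Mx (z - algebraMap ℂ L a) := by rw [← hz]; exact mx_x Q
  have h2 := unit_of_mx ha h1
  have := nn_unit hn h2.1 h2.2.1 h2.2.2
  omega

/-- Completeness of the plane. -/
theorem complete_plane (S : Coord L) (v : DVal L) : ∃ R ∈ plane S, Nn R v := by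
  have hx := S.x_ne
  have hy := S.y_ne
  by_cases h : 0 ≤ v.v S.x ∧ 0 ≤ v.v S.y
  · obtain ⟨a, b, Q, h1, h2, h3⟩ := exists_point S (v := v) (Or.inr h.1) (Or.inr h.2)
    exact ⟨Q.loc, H82.plane_aff ⟨Q, h1, h2, rfl⟩, h3⟩
  by_cases hle : v.v S.x ≤ v.v S.y
  · have hneg : v.v S.x < 0 := by
      by_contra h0
      exact h ⟨by omega, by omega⟩
    have e1 : 0 < v.v S.cinf.x := by rw [S.cinf_x, v.map_inv hx]; omega
    have e2 : 0 ≤ v.v S.cinf.y := by rw [S.cinf_y, v.map_div hy hx]; omega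
    obtain ⟨a, b, Q, h1, h2, h3⟩ := exists_point S.cinf (v := v) (Or.inr e1.le) (Or.inr e2)
    have ha := nn_const h3 h1 e1
    rw [ha, map_zero, sub_zero, S.cinf_x] at h1
    rw [S.cinf_y] at h2
    exact ⟨Q.loc, H82.plane_inf ⟨Q, h1, h2, rfl⟩, h3⟩
  · obtain ⟨S', h1, h2⟩ := S.swap
    have e1 : 0 < v.v S'.cinf.x := by rw [S'.cinf_x, h1, v.map_inv hy]; omega
    have e2 : 0 < v.v S'.cinf.y := by rw [S'.cinf_y, h1, h2, v.map_div hx hy]; omega
    refine ⟨S'.cinf.loc, H82.plane_ver ⟨S'.cinf, ?_, ?_, rfl⟩, ?_⟩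
    · rw [S'.cinf_x, h1]
    · rw [S'.cinf_y, h1, h2]
    · exact (centred_iff.2 ⟨e1, e2⟩).1

/-- Completeness of the blow-up of a point. -/
theorem complete_next {P : Coord L} {v : DVal L} (h : Centred P.loc v) :
    ∃ o, Nn (P.st o).loc v := by
  rw [centred_iff] at h
  have hx := P.x_ne
  have hy := P.y_ne
  by_cases hle : v.v P.x ≤ v.v P.y
  · have e1 : (P.st (some 0)).x = P.x := P.st_some_x 0
    have e2 : (P.st (some 0)).y = P.y / P.x := by rw [P.st_some_y, map_zero, sub_zero]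
    obtain ⟨a, b, Q, h1, h2, h3⟩ := exists_point (P.st (some 0)) (v := v)
      (Or.inr (by rw [e1]; exact h.1.le)) (Or.inr (by rw [e2, v.map_div hy hx]; omega))
    rw [e1] at h1
    rw [e2] at h2
    have ha := nn_const h3 h1 h.1
    rw [ha, map_zero, sub_zero] at h1
    refine ⟨some b, ?_⟩
    have h4 : (P.st (some b)).loc = Q.loc := by
      apply coord_eta
      · rw [P.st_some_x, h1]
      · rw [P.st_some_y, h2]
    rw [h4]
    exact h3
  · refine ⟨none, (centred_iff.2 ⟨?_, ?_⟩).1⟩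
    · rw [P.st_none_x]; exact h.2
    · rw [P.st_none_y, v.map_div hx hy]; omega

theorem complete_blow {X : Set (Subalgebra ℂ L)} (hX : ∀ R ∈ X, ∃ Q : Coord L, Q.loc = R)
    {v : DVal L} (hc : ∃ R ∈ X, Nn R v) (R0 : Subalgebra ℂ L) :
    ∃ R ∈ blow X R0, Nn R v := by
  obtain ⟨R, hR, hn⟩ := hc
  by_cases h : R = R0
  · subst h
    obtain ⟨P, rfl⟩ := hX _ hR
    rcases through_or_centred hn with h1 | h1
    · obtain ⟨R', h2, h3⟩ := a13' H81.st_A6 L P v h1
      exact ⟨R', Or.inr h2, h3.1⟩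
    · obtain ⟨o, ho⟩ := complete_next h1
      exact ⟨_, Or.inr (next_iff.2 ⟨o, rfl⟩), ho⟩
  · exact ⟨R, Or.inl ⟨hR, h⟩, hn⟩

theorem complete_surf (S : Coord L) {k : ℕ} (R : Fin k → Subalgebra ℂ L) (v : DVal L) (j : ℕ) :
    ∃ R' ∈ surf S R j, Nn R' v := by
  induction j with
  | zero => exact complete_plane S v
  | succ j ih =>
    by_cases hj : j < k
    · rw [surf, dif_pos hj]
      exact complete_blow (fun R hR => surf_coord hR) ih _
    · rw [surf, dif_neg hj]
      exact ih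

/-- A13. -/
theorem st_A13 : ST_A13 := a13 H81.st_A6 H81.st_A7

/-- A13'. -/
theorem st_A13' : ST_A13' := a13' H81.st_A6

/-- A14. -/
theorem st_A14 : ST_A14 := fun _ _ _ _ T j R R' v hR hR' hc hn =>
  sep_surf T.valid j R hR R' hR' v hc hn

/-- A15. -/
theorem st_A15 : ST_A15 := by
  intro L _ _ k T v
  obtain ⟨R, hR, hn⟩ := complete_surf T.S T.R v k
  rcases through_or_centred hn with h | h
  · exact Or.inl ⟨R, hR, h⟩
  · exact Or.inr ⟨R, hR, h⟩

/-- A16. -/
theorem st_A16 : ST_A16 := fun _ _ _ _ _ _ _ hR => surf_coord hR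

end H98

end

end LCY
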