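import Pool.Agent.Helper98.LCY.LocD

/-! Curves through the points of a blow-up: A13, A13' (MP_f7e214_ag). -/

open Polynomial

namespace LCY

noncomputable section

variable {L : Type} [Field L] [Algebra ℂ L]

namespace H98

open H62

theorem mx_iff' {P : Coord L} {z : L} : Mx P.loc z ↔ P.Mx z := mx_iff.symm

theorem not_centred_of_through {R : Subalgebra ℂ L} {v : DVal L} (h : Through R v) :
    ¬ Centred R v := by
  intro hc
  obtain ⟨z, hz, hi, h0, h1⟩ := h.2
  have := hc.2 z hz h0 hi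
  omega

theorem ordn_CX : ordn (C X : ℂ[X][X]) = 1 := ordn_eq oe_CX

theorem ordn_X : ordn (X : ℂ[X][X]) = 1 := ordn_eq oe_X

theorem cf_CX0 : cf (C X : ℂ[X][X]) (0, 0) = 0 := by simp [cf]

theorem cf_X0 : cf (X : ℂ[X][X]) (0, 0) = 0 := by simp [cf]

/-- The curve `g = 0` passes through a point of the blow-up if and only if its leading form
vanishes there. -/
theorem not_dvd_eP {g : ℂ[X][X]} (hg : Irreducible g) {o : Option ℂ}
    (h0 : cf (bq o (ordn g) g) (0, 0) = 0) (h1 : cf g (0, 0) = 0) : ¬ g ∣ eP o := by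
  intro h
  have hm := oe_ordn hg.ne_zero
  have h2 : bl o g ∣ C X := by
    have := map_dvd (bl o) h
    rwa [bl_eP] at this
  rw [bl_eq hm.1 o] at h2
  have h3 : 1 ≤ ordn g := (ordn_pos_iff hg.ne_zero).2 h1
  obtain ⟨n, hn⟩ : ∃ n, ordn g = n + 1 := ⟨ordn g - 1, by omega⟩
  rw [hn] at h2
  obtain ⟨k, hk⟩ := h2
  have h4 : (1 : ℂ[X][X]) = C X ^ n * bq o (n + 1) g * k := by
    apply mul_left_cancel₀ CX_ne
    rw [mul_one]
    conv_lhs => rw [hk]
    ring
  have h5 := congrArg (fun q => cf q (0, 0)) h4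
  simp only [cf_mul0, cf_one0] at h5
  rw [hn] at h0
  rw [h0] at h5
  simp at h5

/-- The curve `v` passes through the point of the blow-up in a direction in which the leading form
vanishes. -/
theorem strict_through (h6 : ST_A6) {P : Coord L} {g : ℂ[X][X]} {v : DVal L}
    (hv : IsAdic P g v) (h1 : cf g (0, 0) = 0) {o : Option ℂ}
    (h0 : cf (bq o (ordn g) g) (0, 0) = 0) : Through (P.st o).loc v :=
  (h6 L (P.st o) v).2 ⟨_, strict_adic hv (not_dvd_eP hv.1 h0 h1), h0⟩

/-- A13'. -/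
theorem a13' (h6 : ST_A6) : ST_A13' := by
  intro L _ _ P v hv
  obtain ⟨g, hg, h0⟩ := (h6 L P v).1 hv
  have h1 : 1 ≤ ordn g := (ordn_pos_iff hg.1.ne_zero).2 h0
  obtain ⟨o, ho⟩ := exists_dir h1 (oe_ordn hg.1.ne_zero)
  exact ⟨_, next_iff.2 ⟨o, rfl⟩, strict_through h6 hg h0 ho⟩

/-- A curve through a point of the exceptional curve. -/
theorem through_next (h6 : ST_A6) {P : Coord L} {o : Option ℂ} {v : DVal L}
    (h : Through (P.st o).loc v) : Through P.loc v ∨ v.Same P.ord := by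
  have hn : Nn P.loc v := nn_of_next (next_iff.2 ⟨o, rfl⟩) h.1
  rcases through_or_centred hn with h1 | h1
  · exact Or.inl h1
  right
  obtain ⟨g, hg, -⟩ := (h6 L (P.st o) v).1 h
  have h2 : 0 < v.v (P.st o).x := by
    have h3 := centred_mx h1 (z := (P.st o).x) (by
      cases o with
      | none => rw [P.st_none_x]; exact mx_y P
      | some c => rw [P.st_some_x]; exact mx_x P)
    exact h3.resolve_left (P.st o).x_ne
  rw [← ev_CX (P.st o).x (P.st o).y, adic_pos_iff hg CX_ne] at h2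
  exact adic_ord (adic_assoc hg (hg.1.associated_of_dvd prime_CX.irreducible h2))

/-- A13. -/
theorem a13 (h6 : ST_A6) (h7 : ST_A7) : ST_A13 := by
  intro L _ _ R R' v hN
  have hN' := hN
  obtain ⟨P, Q, rfl, rfl, hx, hy⟩ := hN'
  have h1 := next_loc_le hN
  refine ⟨loc_le h1.1 h1.2, ?_, centred_of_next hN, ?_, ?_⟩
  · intro z hz
    rw [mx_iff'] at hz ⊢
    exact mx_trans h1.1 h1.2 hz
  · intro h
    obtain ⟨o, ho⟩ := next_iff.1 hN
    rw [ho] at h
    rcases through_next h6 h with h2 | h2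
    · exact Or.inl h2
    · exact Or.inr (isOrd_congr (isOrd_ord P) (same_symm h2))
  · intro h
    obtain ⟨P', hP', hs⟩ := isOrd_same h
    obtain ⟨o, ho⟩ := next_iff.1 (show Next P'.loc Q.loc by rw [hP']; exact hN)
    have h2 : IsAdic (P'.st o) (C X) v := ord_adic P' o hs
    rw [ho]
    refine ⟨(h6 L _ v).2 ⟨_, h2, cf_CX0⟩, ?_⟩
    rw [(h7 L _ v _ h2 cf_CX0).1, ordn_CX]
    rfl

end H98

end

end LCY
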