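import Pool.Agent.Helper98.LCY.LocA

/-! Separatedness of the surfaces (A14) (MP_f7e214_ag). -/

open Polynomial

namespace LCY

noncomputable section

variable {L : Type} [Field L] [Algebra ℂ L]

namespace H98

theorem lin_add (S : Coord L) (a b : Fin 3 → ℂ) : lin S (a + b) = lin S a + lin S b := by
  unfold lin
  simp only [Pi.add_apply, map_add]
  ring

theorem lin_smul (S : Coord L) (c : ℂ) (a : Fin 3 → ℂ) :
    lin S (c • a) = algebraMap ℂ L c * lin S a := by
  unfold lin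
  simp only [Pi.smul_apply, smul_eq_mul, map_mul]
  ring

theorem lin_ne (S : Coord L) {a : Fin 3 → ℂ} (ha : a ≠ 0) : lin S a ≠ 0 := by
  intro h
  have h1 : ev S.x S.y (C (C (a 0)) + C (C (a 1)) * C X + C (C (a 2)) * X) = 0 := by
    rw [map_add, map_add, map_mul, map_mul, ev_CC, ev_CC, ev_CC, ev_CX, ev_X]
    exact h
  have h2 := S.inj _ h1
  apply ha
  have e : ∀ i j : ℕ, ((C (C (a 0)) + C (C (a 1)) * C X + C (C (a 2)) * X : ℂ[X][X]).coeff j).coeff i
      = 0 := fun i j => by rw [h2]; simp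
  funext l
  fin_cases l
  · have := e 0 0
    simpa using this
  · have := e 1 0
    simpa [coeff_C, coeff_X] using this
  · have := e 0 1
    simpa [coeff_C, coeff_X] using this

theorem lin_matrix (S : Coord L) (M A : Matrix (Fin 3) (Fin 3) ℂ) (i : Fin 3) :
    lin S ((M * A) i) = algebraMap ℂ L (M i 0) * lin S (A 0) +
      algebraMap ℂ L (M i 1) * lin S (A 1) + algebraMap ℂ L (M i 2) * lin S (A 2) := by
  have h : (M * A) i = (M i 0) • A 0 + (M i 1) • A 1 + (M i 2) • A 2 := by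
    funext l
    simp only [Matrix.mul_apply, Fin.sum_univ_three, Pi.add_apply, Pi.smul_apply, smul_eq_mul]
  rw [h, lin_add, lin_add, lin_smul, lin_smul, lin_smul]

theorem row_ne {A : Matrix (Fin 3) (Fin 3) ℂ} (h : A.det ≠ 0) (i : Fin 3) : A i ≠ 0 := by
  intro h0
  exact h (Matrix.det_eq_zero_of_row_eq_zero i fun j => by rw [h0]; rfl)

/-- Linear forms in a chart. -/
theorem lin_div (S : Coord L) {A A' : Matrix (Fin 3) (Fin 3) ℂ} (hA : A.det ≠ 0) {Q : Coord L}
    (hx : Q.x = lin S (A 1) / lin S (A 0)) (hy : Q.y = lin S (A 2) / lin S (A 0)) (i : Fin 3) :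
    lin S (A' i) / lin S (A 0) = algebraMap ℂ L ((A' * A⁻¹) i 0) +
      algebraMap ℂ L ((A' * A⁻¹) i 1) * Q.x + algebraMap ℂ L ((A' * A⁻¹) i 2) * Q.y := by
  have h1 : A' = (A' * A⁻¹) * A := by
    rw [Matrix.mul_assoc, Matrix.nonsing_inv_mul A (isUnit_iff_ne_zero.2 hA), Matrix.mul_one]
  have h2 := lin_matrix S (A' * A⁻¹) A i
  rw [← h1] at h2
  have h3 := lin_ne S (row_ne hA 0)
  rw [h2, hx, hy]
  field_simp

theorem aff_mx (P : Coord L) (a b c : ℂ) :
    P.Mx ((algebraMap ℂ L a + algebraMap ℂ L b * P.x + algebraMap ℂ L c * P.y) -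
      algebraMap ℂ L a) := by
  have h : (algebraMap ℂ L a + algebraMap ℂ L b * P.x + algebraMap ℂ L c * P.y) -
      algebraMap ℂ L a = algebraMap ℂ L b * P.x + algebraMap ℂ L c * P.y := by ring
  rw [h]
  exact mx_add (mx_mul' (P.loc.algebraMap_mem _) (mx_x P))
    (mx_mul' (P.loc.algebraMap_mem _) (mx_y P))

/-- If `v` is centred at `R` and nonnegative on `R'`, an element of the maximal ideal of `R'`
that lies in `R` lies in the maximal ideal of `R`. -/
theorem mx_of_mem {P Q : Coord L} {v : DVal L} (hc : Centred P.loc v) (hn : Nn Q.loc v) {z : L}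
    (hz : z ∈ P.loc) (hQ : Q.Mx z) : P.Mx z := by
  obtain ⟨c, h1⟩ := exists_residue hz
  by_cases hc0 : c = 0
  · rwa [hc0, map_zero, sub_zero] at h1
  exfalso
  have h2 := centred_mx hc h1
  have h3 : Q.Mx ((z - algebraMap ℂ L c) - algebraMap ℂ L (-c)) := by
    rw [map_neg]
    have : z - algebraMap ℂ L c - -algebraMap ℂ L c = z := by ring
    rwa [this]
  have h4 := unit_of_mx (neg_ne_zero.2 hc0) h3
  have h5 := nn_unit hn h4.1 h4.2.1 h4.2.2
  have h6 := h2.resolve_left h4.1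
  omega

/-- One half of separatedness of the plane. -/
theorem plane_half {S : Coord L} {A A' : Matrix (Fin 3) (Fin 3) ℂ} (hA : A.det ≠ 0)
    (hA' : A'.det ≠ 0) {Q Q' : Coord L}
    (hx : Q.x = lin S (A 1) / lin S (A 0)) (hy : Q.y = lin S (A 2) / lin S (A 0))
    (hx' : Q'.x = lin S (A' 1) / lin S (A' 0)) (hy' : Q'.y = lin S (A' 2) / lin S (A' 0))
    {v : DVal L} (hc : Centred Q.loc v) (hn : Nn Q'.loc v) : Q.Mx Q'.x ∧ Q.Mx Q'.y := by
  set M := A' * A⁻¹ with hM
  have l0 := lin_ne S (row_ne hA 0)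
  have l0' := lin_ne S (row_ne hA' 0)
  set t := lin S (A' 0) / lin S (A 0) with ht
  have ht0 : t ≠ 0 := div_ne_zero l0' l0
  have e0 : t = algebraMap ℂ L (M 0 0) + algebraMap ℂ L (M 0 1) * Q.x +
      algebraMap ℂ L (M 0 2) * Q.y := lin_div S hA hx hy 0
  have e1 : lin S (A' 1) / lin S (A 0) = algebraMap ℂ L (M 1 0) + algebraMap ℂ L (M 1 1) * Q.x +
      algebraMap ℂ L (M 1 2) * Q.y := lin_div S hA hx hy 1
  have e2 : lin S (A' 2) / lin S (A 0) = algebraMap ℂ L (M 2 0) + algebraMap ℂ L (M 2 1) * Q.x +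
      algebraMap ℂ L (M 2 2) * Q.y := lin_div S hA hx hy 2
  have m0 : Q.Mx (t - algebraMap ℂ L (M 0 0)) := by rw [e0]; exact aff_mx Q _ _ _
  -- the inverse of t lies in the other local ring
  have hinv : t⁻¹ ∈ Q'.loc := by
    have h1 : t⁻¹ = lin S (A 0) / lin S (A' 0) := by rw [ht, inv_div]
    rw [h1, lin_div S (A' := A) hA' hx' hy' 0]
    exact Q'.loc.add_mem (Q'.loc.add_mem (Q'.loc.algebraMap_mem _)
      (Q'.loc.mul_mem (Q'.loc.algebraMap_mem _) (mx_loc (mx_x Q'))))
      (Q'.loc.mul_mem (Q'.loc.algebraMap_mem _) (mx_loc (mx_y Q')))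
  have hM0 : M 0 0 ≠ 0 := by
    intro h0
    rw [h0, map_zero, sub_zero] at m0
    have h1 := (centred_mx hc m0).resolve_left ht0
    have h2 := (hn _ hinv).resolve_left (inv_ne_zero ht0)
    rw [v.map_inv ht0] at h2
    omega
  have hu := (unit_of_mx hM0 m0).2.2
  have hmem : ∀ a b c : ℂ, algebraMap ℂ L a + algebraMap ℂ L b * Q.x +
      algebraMap ℂ L c * Q.y ∈ Q.loc := fun a b c =>
    Q.loc.add_mem (Q.loc.add_mem (Q.loc.algebraMap_mem _)
      (Q.loc.mul_mem (Q.loc.algebraMap_mem _) (mx_loc (mx_x Q))))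
      (Q.loc.mul_mem (Q.loc.algebraMap_mem _) (mx_loc (mx_y Q)))
  have hx2 : Q'.x = lin S (A' 1) / lin S (A 0) * t⁻¹ := by
    rw [hx', ht]; field_simp
  have hy2 : Q'.y = lin S (A' 2) / lin S (A 0) * t⁻¹ := by
    rw [hy', ht]; field_simp
  refine ⟨mx_of_mem hc hn ?_ (mx_x Q'), mx_of_mem hc hn ?_ (mx_y Q')⟩
  · rw [hx2, e1]
    exact Q.loc.mul_mem (hmem _ _ _) hu
  · rw [hy2, e2]
    exact Q.loc.mul_mem (hmem _ _ _) hu

/-- The plane is separated. -/
theorem sep_plane {S : Coord L} {R R' : Subalgebra ℂ L} (hR : R ∈ plane S) (hR' : R' ∈ plane S)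
    {v : DVal L} (hc : Centred R v) (hn : Nn R' v) : R = R' := by
  obtain ⟨A, Q, hA, rfl, hx, hy⟩ := hR
  obtain ⟨A', Q', hA', rfl, hx', hy'⟩ := hR'
  have h1 := plane_half hA hA' hx hy hx' hy' hc hn
  have hc' : Centred Q'.loc v := by
    rw [centred_iff]
    exact ⟨(centred_mx hc h1.1).resolve_left Q'.x_ne, (centred_mx hc h1.2).resolve_left Q'.y_ne⟩
  have h2 := plane_half hA' hA hx' hy' hx hy hc' hc.1
  exact loc_eq_iff.2 ⟨h1, h2⟩

/-! ### Points of a blow-up -/

theorem coord_eta {P Q : Coord L} (hx : P.x = Q.x) (hy : P.y = Q.y) : P.loc = Q.loc := by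
  rw [loc_eq_iff, ← hx, ← hy]
  refine ⟨⟨mx_x P, mx_y P⟩, ?_, ?_⟩
  · rw [hx]; exact mx_x Q
  · rw [hy]; exact mx_y Q

/-- Elements of the maximal ideal in terms of the coordinates. -/
theorem mx_split {P : Coord L} {z : L} (h : P.Mx z) :
    ∃ u ∈ P.loc, ∃ w ∈ P.loc, z = P.x * u + P.y * w := by
  obtain ⟨f, g, hf, hg, rfl⟩ := h
  have h1 : f = C X * C (f.coeff 0).divX + X * f.divX := by
    have e1 := f.divX_mul_X_add
    have e2 := (f.coeff 0).divX_mul_X_add
    have e3 : (f.coeff 0).coeff 0 = 0 := hf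
    rw [e3, C_0, add_zero] at e2
    conv_lhs => rw [← e1]
    rw [← C_mul, mul_comm X (f.coeff 0).divX, e2]
    ring
  refine ⟨ev P.x P.y (C (f.coeff 0).divX) / ev P.x P.y g, ⟨_, g, hg, rfl⟩,
    ev P.x P.y f.divX / ev P.x P.y g, ⟨_, g, hg, rfl⟩, ?_⟩
  conv_lhs => rw [h1]
  rw [map_add, map_mul, map_mul, ev_CX, ev_X]
  ring

theorem not_mx_one (P : Coord L) : ¬ P.Mx 1 := by
  intro h
  exact mx_not_inv h one_ne_zero (by rw [inv_one]; exact P.loc.one_mem)

/-- Every point of the blow-up dominates one of the standard points. -/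
theorem next_dom {P P' Q : Coord L} (hP : P'.loc = P.loc) (hx : Q.x = P'.x)
    (hy : Q.y = P'.y / P'.x) : ∃ o, Q.Mx (P.st o).x ∧ Q.Mx (P.st o).y := by
  have px := P.x_ne
  have py := P.y_ne
  have p'x := P'.x_ne
  have hQ : P'.y = Q.x * Q.y := by rw [hx, hy]; field_simp
  have hle : P'.loc ≤ Q.loc := by
    apply loc_le
    · rw [← hx]; exact mx_x Q
    · rw [hQ]; exact mx_mul (mx_x Q) (mx_loc (mx_y Q))
  have hxe : P.Mx P'.x := (mx_congr hP).1 (mx_x P')
  have hx1 : P'.Mx P.x := (mx_congr hP).2 (mx_x P)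
  have hy1 : P'.Mx P.y := (mx_congr hP).2 (mx_y P)
  -- the two quotients
  have key : ∀ z, P'.Mx z → z / Q.x ∈ Q.loc := by
    intro z hz
    obtain ⟨u, hu, w, hw, rfl⟩ := mx_split hz
    have : (P'.x * u + P'.y * w) / Q.x = u + Q.y * w := by
      rw [hQ, ← hx]
      have := Q.x_ne
      field_simp
    rw [this]
    exact Q.loc.add_mem (hle hu) (Q.loc.mul_mem (mx_loc (mx_y Q)) (hle hw))
  have ha := key _ hx1
  have hb := key _ hy1
  obtain ⟨u, hu, w, hw, e⟩ := mx_split hxe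
  rw [← hP] at hu hw
  have e1 : (1 : L) = P.x / Q.x * u + P.y / Q.x * w := by
    have := Q.x_ne
    field_simp
    rw [← e, hx]
  obtain ⟨α, hα⟩ := exists_residue ha
  obtain ⟨β, hβ⟩ := exists_residue hb
  have hxQ : Q.Mx P.x := by
    have : P.x = Q.x * (P.x / Q.x) := by have := Q.x_ne; field_simp
    rw [this]; exact mx_mul (mx_x Q) ha
  have hyQ : Q.Mx P.y := by
    have : P.y = Q.x * (P.y / Q.x) := by have := Q.x_ne; field_simp
    rw [this]; exact mx_mul (mx_x Q) hb
  by_cases hα0 : α = 0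
  · rw [hα0, map_zero, sub_zero] at hα
    have hβ0 : β ≠ 0 := by
      intro h0
      rw [h0, map_zero, sub_zero] at hβ
      apply not_mx_one Q
      rw [e1]
      exact mx_add (mx_mul hα (hle hu)) (mx_mul hβ (hle hw))
    refine ⟨none, ?_, ?_⟩
    · rw [P.st_none_x]; exact hyQ
    · rw [P.st_none_y]
      have h1 := (unit_of_mx hβ0 hβ).2.2
      have : P.x / P.y = P.x / Q.x * (P.y / Q.x)⁻¹ := by
        have := Q.x_ne
        field_simp
      rw [this]
      exact mx_mul hα h1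
  · refine ⟨some (β / α), ?_, ?_⟩
    · rw [P.st_some_x]; exact hxQ
    · rw [P.st_some_y]
      have h1 := (unit_of_mx hα0 hα).2.2
      have hα' : (algebraMap ℂ L α) ≠ 0 := by
        rwa [ne_eq, FaithfulSMul.algebraMap_eq_zero_iff]
      have : P.y / P.x - algebraMap ℂ L (β / α) =
          ((P.y / Q.x - algebraMap ℂ L β) - (P.x / Q.x - algebraMap ℂ L α) *
            algebraMap ℂ L (β / α)) * (P.x / Q.x)⁻¹ := by
        have := Q.x_ne
        rw [map_div₀]
        field_simp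
        ring
      rw [this]
      exact mx_mul (mx_sub hβ (mx_mul hα (Q.loc.algebraMap_mem _))) h1

/-- The shear. -/
theorem exists_shear (P : Coord L) (c : ℂ) :
    ∃ Q : Coord L, Q.x = P.x ∧ Q.y = P.y - algebraMap ℂ L c * P.x := by
  obtain ⟨Q, h1, h2⟩ := (P.st (some c)).tor 1 0 1 1 (Or.inl (by norm_num))
  refine ⟨Q, ?_, ?_⟩
  · rw [h1, P.st_some_x]; simp
  · rw [h2, P.st_some_x, P.st_some_y, zpow_one, zpow_one]
    have := P.x_ne
    field_simp

/-- The standard points are points of the blow-up. -/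
theorem next_st (P : Coord L) (o : Option ℂ) :
    ∃ P' : Coord L, P'.loc = P.loc ∧ (P.st o).x = P'.x ∧ (P.st o).y = P'.y / P'.x := by
  cases o with
  | some c =>
    obtain ⟨Q, h1, h2⟩ := exists_shear P c
    refine ⟨Q, ?_, ?_, ?_⟩
    · rw [loc_eq_iff, h1, h2]
      refine ⟨⟨?_, ?_⟩, mx_x P, mx_sub (mx_y P) (mx_mul' (P.loc.algebraMap_mem _) (mx_x P))⟩
      · rw [← h1]; exact mx_x Q
      · have : P.y = Q.y + algebraMap ℂ L c * Q.x := by rw [h1, h2]; ring
        rw [this]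
        exact mx_add (mx_y Q) (mx_mul' (Q.loc.algebraMap_mem _) (mx_x Q))
    · rw [P.st_some_x, h1]
    · rw [P.st_some_y, h1, h2]
      have := P.x_ne
      field_simp
  | none =>
    obtain ⟨Q, h1, h2⟩ := P.swap
    refine ⟨Q, ?_, ?_, ?_⟩
    · rw [loc_eq_iff, h1, h2]
      refine ⟨⟨?_, ?_⟩, mx_y P, mx_x P⟩
      · rw [← h2]; exact mx_y Q
      · rw [← h1]; exact mx_x Q
    · rw [P.st_none_x, h1]
    · rw [P.st_none_y, h1, h2]

/-- Two standard points do not dominate each other. -/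
theorem st_dom {P : Coord L} {o o' : Option ℂ} (hx : (P.st o').Mx (P.st o).x)
    (hy : (P.st o').Mx (P.st o).y) : o = o' := by
  have px := P.x_ne
  have py := P.y_ne
  cases o with
  | some c =>
    rw [P.st_some_y] at hy
    cases o' with
    | some c' =>
      have h1 := mx_y (P.st (some c'))
      rw [P.st_some_y] at h1
      have h2 := mx_sub h1 hy
      have h3 : P.y / P.x - algebraMap ℂ L c' - (P.y / P.x - algebraMap ℂ L c) =
          algebraMap ℂ L (c - c') := by rw [map_sub]; ring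
      rw [h3] at h2
      by_contra hne
      have hne' : c - c' ≠ 0 := fun h => hne (by rw [sub_eq_zero.1 h])
      apply not_mx_one (P.st (some c'))
      have := mx_mul h2 ((P.st (some c')).loc.algebraMap_mem (c - c')⁻¹)
      rwa [← map_mul, mul_inv_cancel₀ hne', map_one] at this
    | none =>
      exfalso
      have h1 := mx_y (P.st none)
      rw [P.st_none_y] at h1
      have h2 : P.y / P.x ∈ (P.st none).loc := by
        have := (P.st none).loc.add_mem (mx_loc hy) ((P.st none).loc.algebraMap_mem c)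
        rwa [sub_add_cancel] at this
      apply not_mx_one (P.st none)
      have := mx_mul h1 h2
      rwa [div_mul_div_comm, mul_comm P.y, div_self (mul_ne_zero px py)] at this
  | none =>
    rw [P.st_none_y] at hy
    cases o' with
    | some c' =>
      exfalso
      have h1 := mx_y (P.st (some c'))
      rw [P.st_some_y] at h1
      have h2 : P.y / P.x ∈ (P.st (some c')).loc := by
        have := (P.st (some c')).loc.add_mem (mx_loc h1) ((P.st (some c')).loc.algebraMap_mem c')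
        rwa [sub_add_cancel] at this
      apply not_mx_one (P.st (some c'))
      have := mx_mul hy h2
      rwa [div_mul_div_comm, mul_comm P.y, div_self (mul_ne_zero px py)] at this
    | none => rfl

theorem mx_trans {P Q : Coord L} (hx : Q.Mx P.x) (hy : Q.Mx P.y) {z : L} (hz : P.Mx z) :
    Q.Mx z := by
  have hle := loc_le hx hy
  obtain ⟨u, hu, w, hw, rfl⟩ := mx_split hz
  exact mx_add (mx_mul hx (hle hu)) (mx_mul hy (hle hw))

/-- The points of the blow-up in terms of fixed coordinates. -/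
theorem next_iff {P : Coord L} {R' : Subalgebra ℂ L} :
    Next P.loc R' ↔ ∃ o, R' = (P.st o).loc := by
  constructor
  · rintro ⟨P', Q, hP, rfl, hx, hy⟩
    obtain ⟨o, h1, h2⟩ := next_dom hP hx hy
    refine ⟨o, ?_⟩
    obtain ⟨P'', hP', hx', hy'⟩ := next_st P o
    obtain ⟨o', h3, h4⟩ := next_dom (P := P') (hP'.trans hP.symm) hx' hy'
    -- the point Q is the point `some 0` over P'
    have e0 : (P'.st (some 0)).loc = Q.loc := by
      apply coord_eta
      · rw [P'.st_some_x, hx]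
      · rw [P'.st_some_y, hy]; simp
    have h5 : (P'.st (some 0)).Mx (P'.st o').x := (mx_congr e0).2 (mx_trans h1 h2 h3)
    have h6 : (P'.st (some 0)).Mx (P'.st o').y := (mx_congr e0).2 (mx_trans h1 h2 h4)
    have e1 := st_dom h5 h6
    subst e1
    rw [loc_eq_iff]
    have hQ1 : (P'.st (some 0)).Mx Q.x := (mx_congr e0).2 (mx_x Q)
    have hQ2 : (P'.st (some 0)).Mx Q.y := (mx_congr e0).2 (mx_y Q)
    exact ⟨⟨h1, h2⟩, mx_trans h3 h4 hQ1, mx_trans h3 h4 hQ2⟩
  · rintro ⟨o, rfl⟩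
    obtain ⟨P', hP, hx, hy⟩ := next_st P o
    exact ⟨P', P.st o, hP, rfl, hx, hy⟩

theorem st_loc_inj {P : Coord L} {o o' : Option ℂ} (h : (P.st o).loc = (P.st o').loc) :
    o = o' :=
  st_dom ((mx_congr h).1 (mx_x _)) ((mx_congr h).1 (mx_y _))

end H98

end

end LCY
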