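import Pool.Agent.Helper98.LCY.LocC
import Pool.Agent.Helper62.LCY.N4
import Pool.Agent.Helper11.LCY.Stmts

/-! Strict transforms; curves through the points of a blow-up (A13, A13') (MP_f7e214_ag). -/

open Polynomial

namespace LCY

noncomputable section

variable {L : Type} [Field L] [Algebra ℂ L]

namespace H98

open H62

/-! ### The order -/

theorem ordn_eq {m : ℕ} {f : ℂ[X][X]} (h : OE m f) : ordn f = m := by
  unfold ordn
  apply le_antisymm
  · exact Nat.sInf_le h.2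
  · obtain ⟨e, he, h1⟩ := Nat.sInf_mem (s := {n | ∃ e : ℕ × ℕ, cf f e ≠ 0 ∧ e.1 + e.2 = n}) ⟨m, h.2⟩
    rw [← h1]
    exact h.1 e he

theorem oe_ordn {f : ℂ[X][X]} (hf : f ≠ 0) : OE (ordn f) f := by
  obtain ⟨m, h⟩ := exists_OE hf
  rwa [ordn_eq h]

theorem ordn_pos_iff {f : ℂ[X][X]} (hf : f ≠ 0) : 1 ≤ ordn f ↔ cf f (0, 0) = 0 := by
  have h := oe_ordn hf
  rw [← og_one]
  exact ⟨fun h1 => h.1.mono h1, fun h1 => h.le h1⟩

/-! ### Adic valuations -/

theorem adic_val {P : Coord L} {g : ℂ[X][X]} {v : DVal L} (h : IsAdic P g v) {f : ℂ[X][X]}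
    (hf : f ≠ 0) : v.v (ev P.x P.y f) = multiplicity g f := by
  obtain ⟨c, h1, h2⟩ := (fin_mult h.1.prime hf).exists_eq_pow_mul_and_not_dvd
  conv_lhs => rw [h1]
  exact h.2 _ _ h2

theorem adic_zero {P : Coord L} {g : ℂ[X][X]} {v : DVal L} (h : IsAdic P g v) {f : ℂ[X][X]}
    (hf : ¬ g ∣ f) : v.v (ev P.x P.y f) = 0 := by
  have := h.2 0 f hf
  simpa using this

theorem adic_one {P : Coord L} {g : ℂ[X][X]} {v : DVal L} (h : IsAdic P g v) :
    v.v (ev P.x P.y g) = 1 := by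
  have := h.2 1 1 (fun h1 => h.1.not_isUnit (isUnit_of_dvd_one h1))
  simpa using this

theorem adic_int {P : Coord L} {g : ℂ[X][X]} {v : DVal L} (h : IsAdic P g v) (f : ℂ[X][X]) :
    v.Int (ev P.x P.y f) := by
  by_cases hf : f = 0
  · left; rw [hf, map_zero]
  · right; rw [adic_val h hf]; exact Int.natCast_nonneg _

theorem adic_pos_iff {P : Coord L} {g : ℂ[X][X]} {v : DVal L} (h : IsAdic P g v) {f : ℂ[X][X]}
    (hf : f ≠ 0) : 0 < v.v (ev P.x P.y f) ↔ g ∣ f := by
  constructor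
  · intro h1
    by_contra h2
    rw [adic_zero h h2] at h1
    exact lt_irrefl _ h1
  · intro h1
    rw [adic_val h hf]
    have h2 : 1 ≤ multiplicity g f := (le_mult h.1.prime hf (n := 1)).1 (by simpa using h1)
    exact_mod_cast h2

theorem adic_same {P : Coord L} {g : ℂ[X][X]} {v w : DVal L} (hv : IsAdic P g v)
    (hw : IsAdic P g w) : v.Same w := by
  intro a ha
  obtain ⟨⟨f, k⟩, hf, hk, h1⟩ := rep P ha
  rw [h1, v.map_div (P.ne hf) (P.ne hk), w.map_div (P.ne hf) (P.ne hk), adic_val hv hf,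
    adic_val hv hk, adic_val hw hf, adic_val hw hk]

theorem adic_congr {P : Coord L} {g : ℂ[X][X]} {v w : DVal L} (hv : IsAdic P g v)
    (hs : v.Same w) : IsAdic P g w := by
  refine ⟨hv.1, fun n f hf => ?_⟩
  have h1 : f ≠ 0 := fun h0 => hf (h0 ▸ dvd_zero _)
  rw [← hs _ (P.ne (mul_ne_zero (pow_ne_zero _ hv.1.ne_zero) h1))]
  exact hv.2 n f hf

theorem adic_pval (P : Coord L) {g : ℂ[X][X]} (hp : Prime g) : IsAdic P g (P.pval g hp) := by
  refine ⟨hp.irreducible, fun n f hf => ?_⟩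
  have h1 : f ≠ 0 := fun h0 => hf (h0 ▸ dvd_zero _)
  rw [P.pval_ev hp (mul_ne_zero (pow_ne_zero _ hp.ne_zero) h1),
    mult_mul hp (pow_ne_zero _ hp.ne_zero) h1, mult_zero hf, add_zero]
  congr 1
  exact multiplicity_pow_self hp.ne_zero hp.not_isUnit n

/-- Associated polynomials have the same valuation. -/
theorem adic_assoc {P : Coord L} {g g' : ℂ[X][X]} {v : DVal L} (hv : IsAdic P g v)
    (h : Associated g g') : IsAdic P g' v := by
  obtain ⟨u, rfl⟩ := h
  refine ⟨(associated_mul_unit_right g u u.isUnit).irreducible hv.1, fun n f hf => ?_⟩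
  have h1 : ¬ g ∣ (u : ℂ[X][X]) ^ n * f := by
    intro h2
    rw [IsUnit.dvd_mul_left (u.isUnit.pow n)] at h2
    exact hf ((IsUnit.mul_right_dvd u.isUnit).2 h2)
  have h2 := hv.2 n _ h1
  rw [mul_pow, mul_assoc]
  exact h2

/-! ### Order valuations -/

theorem isOrd_ord (P : Coord L) : IsOrd P.loc P.ord :=
  ⟨P, rfl, fun _ hf => P.ord_ev (oe_ordn hf)⟩

theorem isOrd_same {R : Subalgebra ℂ L} {v : DVal L} (h : IsOrd R v) :
    ∃ P : Coord L, P.loc = R ∧ v.Same P.ord := by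
  obtain ⟨P, hP, h1⟩ := h
  refine ⟨P, hP, ?_⟩
  intro a ha
  obtain ⟨⟨f, k⟩, hf, hk, h2⟩ := rep P ha
  rw [h2, v.map_div (P.ne hf) (P.ne hk), DVal.map_div _ (P.ne hf) (P.ne hk), h1 f hf, h1 k hk,
    P.ord_ev (oe_ordn hf), P.ord_ev (oe_ordn hk)]

theorem isOrd_congr {R : Subalgebra ℂ L} {v w : DVal L} (h : IsOrd R v) (hs : v.Same w) :
    IsOrd R w := by
  obtain ⟨P, hP, h1⟩ := h
  exact ⟨P, hP, fun f hf => by rw [← hs _ (P.ne hf)]; exact h1 f hf⟩

theorem same_symm {v w : DVal L} (h : v.Same w) : w.Same v := fun a ha => (h a ha).symm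

theorem same_trans {u v w : DVal L} (h : u.Same v) (h' : v.Same w) : u.Same w :=
  fun a ha => (h a ha).trans (h' a ha)

theorem ord_adic (P : Coord L) (o : Option ℂ) {v : DVal L} (h : v.Same P.ord) :
    IsAdic (P.st o) (C X) v :=
  adic_congr (adic_pval (P.st o) prime_CX)
    (same_symm (same_trans h (P.ord_same o)))

theorem adic_ord {P : Coord L} {o : Option ℂ} {v : DVal L} (h : IsAdic (P.st o) (C X) v) :
    v.Same P.ord :=
  same_trans (adic_same h (adic_pval (P.st o) prime_CX)) (same_symm (P.ord_same o))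

/-! ### Strict transforms -/

/-- The polynomial whose transform is the exceptional equation. -/
def eP : Option ℂ → ℂ[X][X]
  | some _ => C X
  | none => X

theorem bl_eP (o : Option ℂ) : bl o (eP o) = C X := by
  cases o with
  | none => exact bl_X_none
  | some c => exact bl_CX_some c

theorem eP_ne (o : Option ℂ) : eP o ≠ 0 := by
  cases o with
  | none => exact X_ne_zero
  | some c => exact CX_ne

theorem ev_eP (P : Coord L) (o : Option ℂ) : ev P.x P.y (eP o) = (P.st o).x := by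
  rw [← P.ev_st o, bl_eP, ev_CX]

theorem bl_CC (o : Option ℂ) (c : ℂ) : bl o (C (C c)) = C (C c) := by
  cases o with
  | none =>
    change eval₂ _ _ _ = _
    rw [eval₂_C]
    change aeval _ (C c) = _
    rw [aeval_C]
    rfl
  | some c' =>
    change eval₂ _ _ _ = _
    rw [eval₂_C]

/-- Clearing denominators. -/
theorem clear (o : Option ℂ) (h : ℂ[X][X]) : ∃ (N : ℕ) (H : ℂ[X][X]), C X ^ N * h = bl o H := by
  have hadd : ∀ a b : ℂ[X][X], (∃ (N : ℕ) (H : ℂ[X][X]), C X ^ N * a = bl o H) →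
      (∃ (N : ℕ) (H : ℂ[X][X]), C X ^ N * b = bl o H) →
      ∃ (N : ℕ) (H : ℂ[X][X]), C X ^ N * (a + b) = bl o H := by
    rintro a b ⟨N, H, h1⟩ ⟨N', H', h2⟩
    refine ⟨N + N', eP o ^ N' * H + eP o ^ N * H', ?_⟩
    rw [map_add, map_mul, map_mul, map_pow, map_pow, bl_eP, ← h1, ← h2]
    ring
  have hmul : ∀ a b : ℂ[X][X], (∃ (N : ℕ) (H : ℂ[X][X]), C X ^ N * a = bl o H) →
      (∃ (N : ℕ) (H : ℂ[X][X]), C X ^ N * b = bl o H) →
      ∃ (N : ℕ) (H : ℂ[X][X]), C X ^ N * (a * b) = bl o H := by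
    rintro a b ⟨N, H, h1⟩ ⟨N', H', h2⟩
    refine ⟨N + N', H * H', ?_⟩
    rw [map_mul, ← h1, ← h2]
    ring
  have hc : ∀ c : ℂ, ∃ (N : ℕ) (H : ℂ[X][X]), C X ^ N * C (C c) = bl o H := fun c =>
    ⟨0, C (C c), by rw [bl_CC, pow_zero, one_mul]⟩
  have hcx : ∃ (N : ℕ) (H : ℂ[X][X]), C X ^ N * C X = bl o H :=
    ⟨0, eP o, by rw [bl_eP, pow_zero, one_mul]⟩
  have hx : ∃ (N : ℕ) (H : ℂ[X][X]), C X ^ N * X = bl o H := by
    cases o with
    | none =>
      refine ⟨1, C X, ?_⟩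
      change _ = eval₂ _ _ _
      rw [eval₂_C]
      change _ = aeval _ (X : ℂ[X])
      rw [aeval_X, pow_one]
    | some c =>
      refine ⟨1, X - C (C c) * C X, ?_⟩
      rw [map_sub, map_mul, bl_CC, bl_CX_some]
      change _ = eval₂ _ _ _ - _
      rw [eval₂_X, pow_one]
      ring
  have hpow : ∀ (a : ℂ[X][X]), (∃ (N : ℕ) (H : ℂ[X][X]), C X ^ N * a = bl o H) → ∀ n : ℕ,
      ∃ (N : ℕ) (H : ℂ[X][X]), C X ^ N * a ^ n = bl o H := by
    intro a ha n
    induction n with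
    | zero =>
      have := hc 1
      simpa using this
    | succ n ih => rw [pow_succ]; exact hmul _ _ ih ha
  rw [eq_sum_bs h]
  refine Finset.sum_induction _ (fun a => ∃ (N : ℕ) (H : ℂ[X][X]), C X ^ N * a = bl o H) hadd
    ⟨0, 0, by simp⟩ ?_
  intro e _
  rw [← C_mul_X_pow_eq_monomial, C_monomial]
  exact hmul _ _ (hmul _ _ (hc _) (hpow _ hcx _)) (hpow _ hx _)

/-- The strict transform is irreducible and has the same valuation. -/
theorem strict_adic {P : Coord L} {g : ℂ[X][X]} {v : DVal L} (hv : IsAdic P g v)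
    {o : Option ℂ} (ho : ¬ g ∣ eP o) : IsAdic (P.st o) (bq o (ordn g) g) v := by
  have hg0 : g ≠ 0 := hv.1.ne_zero
  have hm := oe_ordn hg0
  set m := ordn g with hmdef
  set g' := bq o m g with hg'
  have hbl : bl o g = C X ^ m * g' := bl_eq hm.1 o
  have hg'0 : r0 g' ≠ 0 := (r0_bq_ne hm o).1
  have hXg : ¬ C X ∣ g' := fun h => hg'0 (r0_of_dvd h)
  have hinj : Function.Injective (bl o) := by
    rw [injective_iff_map_eq_zero]
    intro a ha
    by_contra h0
    exact bl_ne h0 o ha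
  -- divisibility
  have hdvd : ∀ F : ℂ[X][X], g ∣ F ↔ g' ∣ bl o F := by
    intro F
    constructor
    · rintro ⟨k, rfl⟩
      rw [map_mul, hbl]
      exact ⟨C X ^ m * bl o k, by ring⟩
    · rintro ⟨k, hk⟩
      obtain ⟨N, K, hK⟩ := clear o k
      have h1 : bl o (eP o ^ (m + N) * F) = bl o (g * K) := by
        rw [map_mul, map_mul, map_pow, bl_eP, hk, hbl, ← hK]
        ring
      have h2 : g ∣ eP o ^ (m + N) * F := ⟨K, hinj h1⟩
      rcases hv.1.prime.dvd_or_dvd h2 with h3 | h3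
      · exact absurd (hv.1.prime.dvd_of_dvd_pow h3) ho
      · exact h3
  have hX : ∀ (N : ℕ) (f : ℂ[X][X]), g' ∣ C X ^ N * f → g' ∣ f := by
    intro N f h
    obtain ⟨k, hk⟩ := h
    have h1 : C X ^ N ∣ k := prime_CX.pow_dvd_of_dvd_mul_left N hXg ⟨f, hk.symm⟩
    obtain ⟨k', rfl⟩ := h1
    refine ⟨k', ?_⟩
    apply mul_left_cancel₀ (pow_ne_zero N CX_ne)
    rw [hk]; ring
  have hprime : Prime g' := by
    refine ⟨fun h0 => hg'0 (by rw [h0]; exact r0_of_dvd (dvd_zero _)), ?_, ?_⟩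
    · intro hu
      have h1 : g' ∣ bl o 1 := hu.dvd
      exact hv.1.not_isUnit (isUnit_of_dvd_one ((hdvd 1).2 h1))
    · intro a b hab
      obtain ⟨N, A, hA⟩ := clear o a
      obtain ⟨M, B, hB⟩ := clear o b
      have h1 : g' ∣ bl o (A * B) := by
        rw [map_mul, ← hA, ← hB]
        exact hab.trans ⟨C X ^ N * C X ^ M, by ring⟩
      rcases hv.1.prime.dvd_or_dvd ((hdvd _).2 h1) with h2 | h2
      · left
        have := (hdvd _).1 h2
        rw [← hA] at this
        exact hX _ _ this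
      · right
        have := (hdvd _).1 h2
        rw [← hB] at this
        exact hX _ _ this
  have hxne := (P.st o).x_ne
  have hvx : v.v (P.st o).x = 0 := by
    rw [← ev_eP]; exact adic_zero hv ho
  have hval : ∀ f : ℂ[X][X], ¬ g' ∣ f → v.v (ev (P.st o).x (P.st o).y f) = 0 := by
    intro f hf
    have hf0 : f ≠ 0 := fun h => hf (h ▸ dvd_zero _)
    obtain ⟨N, F, hF⟩ := clear o f
    have h1 : ¬ g ∣ F := by
      intro h
      have := (hdvd _).1 h
      rw [← hF] at this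
      exact hf (hX _ _ this)
    have h2 := adic_zero hv h1
    rw [← P.ev_st o, ← hF, map_mul, map_pow, ev_CX,
      v.map_mul _ _ (pow_ne_zero _ hxne) ((P.st o).ne hf0), v.map_pow hxne, hvx] at h2
    simpa using h2
  have hone : v.v (ev (P.st o).x (P.st o).y g') = 1 := by
    have h2 := adic_one hv
    rw [← P.ev_st o, hbl, map_mul, map_pow, ev_CX,
      v.map_mul _ _ (pow_ne_zero _ hxne) ((P.st o).ne hprime.ne_zero), v.map_pow hxne, hvx] at h2
    simpa using h2
  refine ⟨hprime.irreducible, fun n f hf => ?_⟩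
  have hf0 : f ≠ 0 := fun h => hf (h ▸ dvd_zero _)
  rw [map_mul, map_pow, v.map_mul _ _ (pow_ne_zero _ ((P.st o).ne hprime.ne_zero))
    ((P.st o).ne hf0), v.map_pow ((P.st o).ne hprime.ne_zero), hone, hval f hf]
  ring

end H98

end

end LCY
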