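import Pool.Agent.Helper98.LCY.LocG
import Pool.Agent.Helper73.LCY.Inter

/-! The exact intersection formula: INT, C3, C4 from BEZ, NOE, EXC (MP_f7e214_ag). -/

open Polynomial Pool.Agent.Helper82.LCY

namespace LCY

noncomputable section

namespace H98

theorem fs_blow {α : Type} {X : Set α} {R0 : α} (h0 : R0 ∈ X) {N : Set α}
    (hd : Disjoint (X \ {R0}) N) (f : α → ℤ)
    (hX : {R | R ∈ X ∧ f R ≠ 0}.Finite) (hN : {R | R ∈ N ∧ f R ≠ 0}.Finite) :
    {R | R ∈ (X \ {R0}) ∪ N ∧ f R ≠ 0}.Finite ∧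
      ∑ᶠ R ∈ (X \ {R0}) ∪ N, f R = ∑ᶠ R ∈ X, f R - f R0 + ∑ᶠ R ∈ N, f R := by
  have hX' : ((X \ {R0}) ∩ Function.support f).Finite :=
    hX.subset fun R hR => ⟨hR.1.1, hR.2⟩
  have hN' : (N ∩ Function.support f).Finite := hN.subset fun R hR => ⟨hR.1, hR.2⟩
  constructor
  · refine (hX.union hN).subset ?_
    rintro R ⟨hR | hR, h⟩
    · exact Or.inl ⟨hR.1, h⟩
    · exact Or.inr ⟨hR, h⟩
  · rw [finsum_mem_union' hd hX' hN']
    congr 1
    have h1 : X = (X \ {R0}) ∪ {R0} := by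
      ext R
      simp only [Set.mem_union, Set.mem_sdiff, Set.mem_singleton_iff]
      constructor
      · intro h
        by_cases h2 : R = R0
        · exact Or.inr h2
        · exact Or.inl ⟨h, h2⟩
      · rintro (h | h)
        · exact h.1
        · rw [h]; exact h0
    have h2 : ∑ᶠ R ∈ X, f R = ∑ᶠ R ∈ (X \ {R0}) ∪ {R0}, f R := by rw [← h1]
    rw [h2, finsum_mem_union' Set.disjoint_sdiff_left hX'
      ((Set.finite_singleton R0).subset Set.inter_subset_left), finsum_mem_singleton]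
    ring

variable {L : Type} [Field L] [Algebra ℂ L]

theorem inter_comm (R : Subalgebra ℂ L) (v w : DVal L) : inter R v w = inter R w v := by
  unfold inter
  by_cases h : Through R v ∧ Through R w
  · rw [if_pos h, if_pos h.symm, sup_comm (pid R v) (pid R w)]
  · rw [if_neg h, if_neg fun h' => h h'.symm]

theorem inter_zero {R : Subalgebra ℂ L} {v w : DVal L} (h : ¬ (Through R v ∧ Through R w)) :
    inter R v w = 0 := by
  unfold inter
  rw [if_neg h]

theorem inter_through {R : Subalgebra ℂ L} {v w : DVal L} (h : inter R v w ≠ 0) :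
    Through R v ∧ Through R w := by
  by_contra h'
  exact h (inter_zero h')

theorem fin_zero {X : Set (Subalgebra ℂ L)} {v w : DVal L}
    (h : ∀ R ∈ X, inter R v w = 0) : {R | R ∈ X ∧ inter R v w ≠ 0}.Finite ∧
      ∑ᶠ R ∈ X, (inter R v w : ℤ) = 0 := by
  constructor
  · convert Set.finite_empty
    ext R
    simp only [Set.mem_ofPred_eq, Set.mem_empty_iff_false, iff_false, not_and, not_not]
    exact h R
  · apply finsum_mem_eq_zero_of_forall_eq_zero
    intro R hR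
    rw [h R hR]
    rfl

/-- A point of the blow-up of a point of a surface is not a point of the surface. -/
theorem next_disjoint {S : Coord L} {k : ℕ} {R : Fin k → Subalgebra ℂ L}
    (hv : ∀ i : Fin k, R i ∈ surf S R i) (j : Fin k) :
    Disjoint (surf S R j \ {R j}) {R' | Next (R j) R'} := by
  rw [Set.disjoint_left]
  rintro R' ⟨h1, h2⟩ h3
  obtain ⟨Q, hQ⟩ := surf_coord h1
  have h4 : Centred R' Q.ord := by
    rw [← hQ]; exact ord_centred (isOrd_ord Q)
  exact h2 (sep_surf hv j R' h1 _ (hv j) _ h4 ((st_A13 L _ _ Q.ord h3).2.2.1 h4).1)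

theorem mul_zero_of {R : Subalgebra ℂ L} {v : DVal L} (h1 : ¬ IsOrd R v) (h2 : ¬ Through R v) :
    mul R v = 0 := by
  unfold mul
  rw [if_neg h1, if_neg h2]

/-- The curves of the next surface. -/
theorem cur_succ {k : ℕ} (T : PStr L k) {j : ℕ} (hj : j < k) {v : DVal L}
    (h : ∃ R' ∈ surf T.S T.R (j + 1), Through R' v) :
    (∃ R' ∈ surf T.S T.R j, Through R' v) ∨ IsOrd (T.R ⟨j, hj⟩) v := by
  obtain ⟨R', h1, h2⟩ := h
  rw [surf, dif_pos hj] at h1
  rcases h1 with h1 | h1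
  · exact Or.inl ⟨R', h1.1, h2⟩
  · rcases (st_A13 L _ _ v h1).2.2.2.1 h2 with h3 | h3
    · exact Or.inl ⟨_, T.valid ⟨j, hj⟩, h3⟩
    · exact Or.inr h3

theorem not_ord_of_cur {k : ℕ} (T : PStr L k) {j : ℕ} (hj : j < k) {v : DVal L}
    (h : ∃ R' ∈ surf T.S T.R j, Through R' v) : ¬ IsOrd (T.R ⟨j, hj⟩) v := fun h1 =>
  not_both T.valid (j := j) h ⟨_, T.valid ⟨j, hj⟩, ord_centred h1⟩

/-- The intersection formula on the `j`-th surface. -/
def IntJ {k : ℕ} (T : PStr L k) (j : ℕ) (v w : DVal L) : Prop :=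
  {R | R ∈ surf T.S T.R j ∧ inter R v w ≠ 0}.Finite ∧
    deg T.S v * deg T.S w - ∑ i ∈ Finset.univ.filter (fun i : Fin k => (i : ℕ) < j), mul (T.R i) v * mul (T.R i) w =
      ∑ᶠ R ∈ surf T.S T.R j, (inter R v w : ℤ)

theorem intJ_comm {k : ℕ} {T : PStr L k} {j : ℕ} {v w : DVal L} (h : IntJ T j v w) :
    IntJ T j w v := by
  unfold IntJ at h ⊢
  simp only [inter_comm _ w v, mul_comm (deg T.S w), mul_comm (mul _ w)]
  exact h

theorem sum_succ {k : ℕ} (f : Fin k → ℤ) {j : ℕ} (hj : j < k) :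
    ∑ i ∈ Finset.univ.filter (fun i : Fin k => (i : ℕ) < j + 1), f i = ∑ i ∈ Finset.univ.filter (fun i : Fin k => (i : ℕ) < j), f i + f ⟨j, hj⟩ := by
  have h1 : (Finset.univ.filter fun i : Fin k => (i : ℕ) < j + 1) =
      insert ⟨j, hj⟩ (Finset.univ.filter fun i : Fin k => (i : ℕ) < j) := by
    ext i
    simp only [Finset.mem_filter, Finset.mem_univ, true_and, Finset.mem_insert]
    constructor
    · intro h
      by_cases h2 : (i : ℕ) < j
      · exact Or.inr h2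
      · exact Or.inl (Fin.ext (by dsimp only; omega))
    · rintro (h | h)
      · rw [h]; simp
      · omega
  rw [h1, Finset.sum_insert (by simp)]
  ring

/-- The exceptional curve. -/
theorem int_exc (he : ST_EXC) {k : ℕ} (T : PStr L k) {j : ℕ} (hj : j < k) {v w : DVal L}
    (hv : IsOrd (T.R ⟨j, hj⟩) v) (hw : ∃ R' ∈ surf T.S T.R j, Through R' w) :
    IntJ T (j + 1) v w := by
  have hA := st_A18 L k T ⟨j, hj⟩ v hv
  have hwo := not_ord_of_cur T hj hw
  obtain ⟨P, hP⟩ := surf_coord (T.valid ⟨j, hj⟩)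
  -- the points of the old surface
  have hold : ∀ R ∈ surf T.S T.R j, inter R v w = 0 := by
    intro R hR
    by_contra h
    exact not_both T.valid (j := j) ⟨R, hR, (inter_through h).1⟩
      ⟨_, T.valid ⟨j, hj⟩, ord_centred hv⟩
  have hX := fin_zero hold
  have hN : {R' | Next (T.R ⟨j, hj⟩) R' ∧ inter R' v w ≠ 0}.Finite ∧
      mul (T.R ⟨j, hj⟩) w = ∑ᶠ R' ∈ {R' | Next (T.R ⟨j, hj⟩) R'}, (inter R' v w : ℤ) := by
    by_cases hth : Through (T.R ⟨j, hj⟩) w
    · rw [← hP] at hv hth ⊢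
      exact he L P v w hv hth
    · have h1 := fin_zero (X := {R' | Next (T.R ⟨j, hj⟩) R'}) (v := v) (w := w) (by
        intro R' hR'
        apply inter_zero
        rintro ⟨-, h2⟩
        rcases (st_A13 L _ _ w hR').2.2.2.1 h2 with h3 | h3
        · exact hth h3
        · exact hwo h3)
      rw [mul_zero_of hwo hth, h1.2]
      exact ⟨h1.1, rfl⟩
  have hm : ∑ i ∈ Finset.univ.filter (fun i : Fin k => (i : ℕ) < j), mul (T.R i) v * mul (T.R i) w = 0 := by
    apply Finset.sum_eq_zero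
    intro i hi
    rw [Finset.mem_filter] at hi
    have hlt : i < ⟨j, hj⟩ := hi.2
    rw [mul_zero_of (fun h => (ne_of_lt hlt) (hA.2.2.1 i h)) (hA.2.2.2.1 i hlt), zero_mul]
  have hmj : mul (T.R ⟨j, hj⟩) v = -1 := if_pos hv
  have hfs := fs_blow (T.valid ⟨j, hj⟩) (next_disjoint T.valid ⟨j, hj⟩)
    (fun R => (inter R v w : ℤ))
    (hX.1.subset fun R hR => ⟨hR.1, by exact_mod_cast hR.2⟩)
    (hN.1.subset fun R hR => ⟨hR.1, by exact_mod_cast hR.2⟩)
  have hs : surf T.S T.R (j + 1) = (surf T.S T.R j \ {T.R ⟨j, hj⟩}) ∪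
      {R' | Next (T.R ⟨j, hj⟩) R'} := by
    rw [surf, dif_pos hj]; rfl
  refine ⟨?_, ?_⟩
  · rw [hs]
    exact hfs.1.subset fun R hR => ⟨hR.1, by exact_mod_cast hR.2⟩
  · rw [hs, hfs.2, hX.2, hold _ (T.valid ⟨j, hj⟩), ← hN.2, sum_succ _ hj, hm, hmj, hA.2.1]
    simp

/-- Two old curves. -/
theorem int_old (hn : ST_NOE) {k : ℕ} (T : PStr L k) {j : ℕ} (hj : j < k) {v w : DVal L}
    (hs : ¬ v.Same w)
    (hv : ∃ R' ∈ surf T.S T.R j, Through R' v) (hw : ∃ R' ∈ surf T.S T.R j, Through R' w)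
    (ih : IntJ T j v w) : IntJ T (j + 1) v w := by
  have hvo := not_ord_of_cur T hj hv
  have hwo := not_ord_of_cur T hj hw
  obtain ⟨P, hP⟩ := surf_coord (T.valid ⟨j, hj⟩)
  have hN : {R' | Next (T.R ⟨j, hj⟩) R' ∧ inter R' v w ≠ 0}.Finite ∧
      (inter (T.R ⟨j, hj⟩) v w : ℤ) = mul (T.R ⟨j, hj⟩) v * mul (T.R ⟨j, hj⟩) w +
        ∑ᶠ R' ∈ {R' | Next (T.R ⟨j, hj⟩) R'}, (inter R' v w : ℤ) := by
    by_cases hth : Through (T.R ⟨j, hj⟩) v ∧ Through (T.R ⟨j, hj⟩) w
    · rw [← hP] at hth ⊢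
      exact hn L P v w hth.1 hth.2 hs
    · have h1 := fin_zero (X := {R' | Next (T.R ⟨j, hj⟩) R'}) (v := v) (w := w) (by
        intro R' hR'
        apply inter_zero
        rintro ⟨h2, h3⟩
        apply hth
        exact ⟨((st_A13 L _ _ v hR').2.2.2.1 h2).resolve_right hvo,
          ((st_A13 L _ _ w hR').2.2.2.1 h3).resolve_right hwo⟩)
      have h2 : mul (T.R ⟨j, hj⟩) v * mul (T.R ⟨j, hj⟩) w = 0 := by
        by_cases h3 : Through (T.R ⟨j, hj⟩) v
        · have h4 : ¬ Through (T.R ⟨j, hj⟩) w := fun h => hth ⟨h3, h⟩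
          rw [mul_zero_of hwo h4, mul_zero]
        · rw [mul_zero_of hvo h3, zero_mul]
      rw [h2, inter_zero hth, h1.2]
      exact ⟨h1.1, rfl⟩
  have hfs := fs_blow (T.valid ⟨j, hj⟩) (next_disjoint T.valid ⟨j, hj⟩)
    (fun R => (inter R v w : ℤ))
    (ih.1.subset fun R hR => ⟨hR.1, by exact_mod_cast hR.2⟩)
    (hN.1.subset fun R hR => ⟨hR.1, by exact_mod_cast hR.2⟩)
  have hs : surf T.S T.R (j + 1) = (surf T.S T.R j \ {T.R ⟨j, hj⟩}) ∪
      {R' | Next (T.R ⟨j, hj⟩) R'} := by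
    rw [surf, dif_pos hj]; rfl
  refine ⟨?_, ?_⟩
  · rw [hs]
    exact hfs.1.subset fun R hR => ⟨hR.1, by exact_mod_cast hR.2⟩
  · rw [hs, hfs.2, sum_succ _ hj, ← ih.2, hN.2]
    ring

/-- The intersection formula. -/
theorem int_all (hb : ST_BEZ) (hn : ST_NOE) (he : ST_EXC) {k : ℕ} (T : PStr L k) (j : ℕ) :
    j ≤ k → ∀ v w : DVal L, ¬ v.Same w → (∃ R' ∈ surf T.S T.R j, Through R' v) →
    (∃ R' ∈ surf T.S T.R j, Through R' w) → IntJ T j v w := by
  induction j with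
  | zero =>
    intro _ v w hs hv hw
    have h := hb L T.S v w hv hw hs
    refine ⟨h.1, ?_⟩
    have h0 : ∑ i ∈ Finset.univ.filter (fun i : Fin k => (i : ℕ) < 0), mul (T.R i) v * mul (T.R i) w = 0 := by
      apply Finset.sum_eq_zero
      intro i hi
      rw [Finset.mem_filter] at hi
      exact absurd hi.2 (Nat.not_lt_zero _)
    rw [h0, sub_zero]
    exact h.2
  | succ j ih =>
    intro hj v w hs hv hw
    have hj' : j < k := hj
    rcases cur_succ T hj' hv with hv' | hv'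
    · rcases cur_succ T hj' hw with hw' | hw'
      · exact int_old hn T hj' hs hv' hw' (ih hj'.le v w hs hv' hw')
      · exact intJ_comm (int_exc he T hj' hw' hv')
    · rcases cur_succ T hj' hw with hw' | hw'
      · exact int_exc he T hj' hv' hw'
      · exact absurd (H81.st_A5 L _ v w hv' hw') hs

/-- INT. -/
theorem st_INT (hb : ST_BEZ) (hn : ST_NOE) (he : ST_EXC) : ST_INT := by
  intro L _ _
  refine ⟨inter, ?_, fun R v w h => inter_through h, ?_⟩
  · intro R v w h1 h2 _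
    unfold inter
    rw [if_pos ⟨h1, h2⟩]
    exact le_max_left _ _
  · intro k T v w hv hw hs
    have h := int_all hb hn he T k le_rfl v w hs hv hw
    refine ⟨h.1, ?_⟩
    rw [PStr.X, ← h.2]
    unfold ip PStr.cl
    have h1 : (Finset.univ.filter fun i : Fin k => (i : ℕ) < k) = Finset.univ := by
      ext i; simp
    rw [h1]

/-- C3. -/
theorem st_C3 (hi : ST_INT) : ST_C3 := by
  intro L _ _ k T v w hv hw hs
  obtain ⟨I, -, -, h⟩ := hi L
  rw [(h k T v w hv hw hs).2]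
  exact finsum_mem_induction (fun z : ℤ => 0 ≤ z) le_rfl (fun _ _ => add_nonneg)
    fun R _ => Int.natCast_nonneg _

/-- C4. -/
theorem st_C4 (hi : ST_INT) : ST_C4 := by
  intro L _ _ k T v w hv hw hs
  obtain ⟨I, h1, h2, h⟩ := hi L
  have h3 := h k T v w hv hw hs
  rw [h3.2]
  constructor
  · intro h0 R hR hRv hRw
    have h4 := h1 R v w hRv hRw hs
    have h5 := fs_blow hR (N := ∅) (Set.disjoint_empty _) (fun R => (I R v w : ℤ))
      (h3.1.subset fun R hR => ⟨hR.1, by exact_mod_cast hR.2⟩)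
      (Set.finite_empty.subset fun R hR => hR.1)
    have h6 : 0 ≤ ∑ᶠ R' ∈ (T.X \ {R}) ∪ ∅, (I R' v w : ℤ) :=
      finsum_mem_induction (fun z : ℤ => 0 ≤ z) le_rfl (fun _ _ => add_nonneg)
        fun R _ => Int.natCast_nonneg _
    rw [h5.2, h0, finsum_mem_empty] at h6
    omega
  · intro h4
    apply finsum_mem_eq_zero_of_forall_eq_zero
    intro R hR
    by_contra h5
    have h6 : I R v w ≠ 0 := by exact_mod_cast h5
    exact h4 R hR (h2 R v w h6).1 (h2 R v w h6).2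

end H98

end

end LCY
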