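import Pool.Agent.Helper98.LCY.LocF

/-! The curves of the surfaces: A17, A18 (MP_f7e214_ag). -/

open Polynomial

namespace LCY

noncomputable section

variable {L : Type} [Field L] [Algebra ℂ L]

namespace H98

open H62

/-- The multiplicity does not increase. -/
theorem mul_st {P : Coord L} {o : Option ℂ} {v : DVal L} (h : Through P.loc v)
    (h' : Through (P.st o).loc v) :
    1 ≤ mul (P.st o).loc v ∧ mul (P.st o).loc v ≤ mul P.loc v := by
  obtain ⟨g, hg, h0⟩ := (H81.st_A6 L P v).1 h
  obtain ⟨k, hk, hk0⟩ := (H81.st_A6 L (P.st o) v).1 h'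
  have hnd : ¬ g ∣ eP o := by
    intro hd
    have h1 : 0 < v.v (P.st o).x := by
      rw [← ev_eP]
      exact (adic_pos_iff hg (eP_ne o)).2 hd
    rw [← ev_CX (P.st o).x (P.st o).y, adic_pos_iff hk CX_ne] at h1
    have h2 := adic_ord (adic_assoc hk (hk.1.associated_of_dvd prime_CX.irreducible h1))
    have h3 : Centred P.loc v := by
      rw [centred_iff, h2 _ P.x_ne, h2 _ P.y_ne, ord_x, ord_y]
      exact ⟨one_pos, one_pos⟩
    exact not_centred_of_through h h3
  have hs := strict_adic hg hnd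
  have hass : Associated k (bq o (ordn g) g) := by
    apply hk.1.associated_of_dvd hs.1
    rw [← adic_pos_iff hk hs.1.ne_zero, adic_one hs]
    exact one_pos
  have hs0 : cf (bq o (ordn g) g) (0, 0) = 0 := by
    obtain ⟨u, hu⟩ := hass
    rw [← hu, cf_mul0, hk0, zero_mul]
  rw [(H81.st_A7 L P v g hg h0).1, (H81.st_A7 L _ v _ hs hs0).1]
  refine ⟨by exact_mod_cast (H81.st_A7 L _ v _ hs hs0).2, ?_⟩
  have h1 := r0_bq_ne (oe_ordn hg.1.ne_zero) o
  have h2 : (r0 (bq o (ordn g) g)).coeff (r0 (bq o (ordn g) g)).natDegree ≠ 0 := by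
    rw [← leadingCoeff, Ne, leadingCoeff_eq_zero]
    exact h1.1
  rw [r0_coeff] at h2
  have h3 := (oe_ordn hs.1.ne_zero).1 _ h2
  have h4 := h1.2
  have h5 : ordn (bq o (ordn g) g) ≤ ordn g := by
    refine le_trans h3 ?_
    simpa using h4
  exact_mod_cast h5

/-- A valuation nonnegative on the plane that is not centred at a point is a curve. -/
theorem adic_of_int (U : Coord L) {v : DVal L} (hx : v.Int U.x) (hy : v.Int U.y)
    (hnc : ¬ ((∃ c : ℂ, v.Pos (U.x - algebraMap ℂ L c)) ∧
      ∃ c : ℂ, v.Pos (U.y - algebraMap ℂ L c))) : ∃ g, IsAdic U g v := by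
  have hint : ∀ f, v.Int (ev U.x U.y f) := fun f => v.int_ev hx hy f
  obtain ⟨π, hπ, h3⟩ := v.exists_unif
  obtain ⟨⟨a, b⟩, ha, hb, h4⟩ := H62.rep U hπ
  dsimp only at ha hb h4
  have h5 : v.Pos (ev U.x U.y a) := by
    right
    rw [h4, v.map_div (U.ne ha) (U.ne hb)] at h3
    have := (hint b).resolve_left (U.ne hb)
    omega
  obtain ⟨p, hp, hpp, hall⟩ := exists_prime_centre v U hx hy hnc ha h5
  exact ⟨p, H81.adic_of_centre U hp hint hpp hall⟩

theorem isInf_of_adic {S : Coord L} {v : DVal L} (h : IsAdic S.cinf (C X) v) : IsInf S v := by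
  have h1 : v.Same S.inf := adic_same h (adic_pval S.cinf prime_CX)
  intro f hf
  rw [h1 _ (S.ne hf)]
  exact isInf_inf S f hf

/-- A curve through a point of the plane is a plane curve. -/
theorem plane_cur {S : Coord L} {R : Subalgebra ℂ L} {v : DVal L} (hR : R ∈ plane S)
    (h : Through R v) : PlaneCur S v := by
  have hx := S.x_ne
  have hy := S.y_ne
  have hnc : ∀ R' ∈ plane S, ¬ Centred R' v := fun R' hR' hc => by
    have := sep_plane hR' hR hc h.1
    subst this
    exact not_centred_of_through h hc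
  by_cases h0 : 0 ≤ v.v S.x ∧ 0 ≤ v.v S.y
  · right
    apply adic_of_int S (Or.inr h0.1) (Or.inr h0.2)
    rintro ⟨⟨a, ha⟩, b, hb⟩
    obtain ⟨Q, h1, h2⟩ := S.trans a b
    refine hnc Q.loc (H82.plane_aff ⟨Q, h1, h2, rfl⟩) (centred_iff.2 ⟨?_, ?_⟩)
    · rw [← h1] at ha
      exact ha.resolve_left Q.x_ne
    · rw [← h2] at hb
      exact hb.resolve_left Q.y_ne
  left
  by_cases hle : v.v S.x ≤ v.v S.y
  · have hneg : v.v S.x < 0 := by
      by_contra h1
      exact h0 ⟨by omega, by omega⟩
    have e1 : 0 < v.v S.cinf.x := by rw [S.cinf_x, v.map_inv hx]; omega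
    have e2 : 0 ≤ v.v S.cinf.y := by rw [S.cinf_y, v.map_div hy hx]; omega
    obtain ⟨g, hg⟩ := adic_of_int S.cinf (v := v) (Or.inr e1.le) (Or.inr e2) (by
      rintro ⟨-, b, hb⟩
      obtain ⟨Q, h1, h2⟩ := S.cinf.trans 0 b
      rw [map_zero, sub_zero] at h1
      refine hnc Q.loc (H82.plane_inf (b := b) ⟨Q, ?_, ?_, rfl⟩) (centred_iff.2 ⟨?_, ?_⟩)
      · rw [h1, S.cinf_x]
      · rw [h2, S.cinf_y]
      · rw [h1]; exact e1
      · rw [← h2] at hb
        exact hb.resolve_left Q.y_ne)
    rw [← ev_CX S.cinf.x S.cinf.y, adic_pos_iff hg CX_ne] at e1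
    exact isInf_of_adic (adic_assoc hg (hg.1.associated_of_dvd prime_CX.irreducible e1))
  · exfalso
    obtain ⟨S', h1, h2⟩ := S.swap
    have e1 : 0 < v.v S'.cinf.x := by
      rw [S'.cinf_x, h1, v.map_inv hy]
      by_contra h3
      exact h0 ⟨by omega, by omega⟩
    have e2 : 0 < v.v S'.cinf.y := by rw [S'.cinf_y, h1, h2, v.map_div hx hy]; omega
    refine hnc S'.cinf.loc (H82.plane_ver ⟨S'.cinf, ?_, ?_, rfl⟩) (centred_iff.2 ⟨e1, e2⟩)
    · rw [S'.cinf_x, h1]
    · rw [S'.cinf_y, h1, h2]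

/-- A plane curve has no centre at a point of the plane. -/
theorem plane_not_centred {S : Coord L} {v : DVal L} (h : PlaneCur S v) {R : Subalgebra ℂ L}
    (hR : R ∈ plane S) : ¬ Centred R v := by
  intro hc
  have hx := S.x_ne
  have hy := S.y_ne
  rcases H82.mem_plane hR with ⟨a, b, Q, h1, h2, rfl⟩ | ⟨b, Q, h1, h2, rfl⟩ | ⟨Q, h1, h2, rfl⟩
  · rw [centred_iff] at hc
    have e1 : ev S.x S.y (C X - C (C a)) = Q.x := by rw [map_sub, ev_CX, ev_CC, h1]
    have e2 : ev S.x S.y (X - C (C b)) = Q.y := by rw [map_sub, ev_X, ev_CC, h2]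
    have n1 : (C X - C (C a) : ℂ[X][X]) ≠ 0 := by
      intro h0
      rw [h0, map_zero] at e1
      exact Q.x_ne e1.symm
    have n2 : (X - C (C b) : ℂ[X][X]) ≠ 0 := X_sub_C_ne_zero _
    rcases h with h | ⟨g, hg⟩
    · have h3 := h _ n1
      rw [e1] at h3
      omega
    · rw [← e1, ← e2, adic_pos_iff hg n1, adic_pos_iff hg n2] at hc
      -- an irreducible polynomial dividing both
      have i1 : Irreducible (C X - C (C a) : ℂ[X][X]) := by
        rw [← C_sub]
        exact (prime_C_iff.2 (prime_X_sub_C a)).irreducible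
      have i2 : Irreducible (X - C (C b) : ℂ[X][X]) := irreducible_X_sub_C _
      have h3 := (hg.1.associated_of_dvd i1 hc.1).symm.trans (hg.1.associated_of_dvd i2 hc.2)
      have h4 := h3.dvd
      rw [← C_sub, C_dvd_iff_dvd_coeff] at h4
      have h5 := h4 1
      rw [coeff_sub, coeff_X_one, coeff_C] at h5
      simp only [one_ne_zero, if_false, sub_zero] at h5
      exact not_isUnit_X_sub_C a (isUnit_of_dvd_one h5)
  · rw [centred_iff, h1, v.map_inv hx] at hc
    rcases h with h | ⟨g, hg⟩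
    · have n2 : (X - C (C b) * C X : ℂ[X][X]) ≠ 0 := by
        intro h0
        have := congrArg (fun q : ℂ[X][X] => q.coeff 1) h0
        simp only [coeff_sub, coeff_X_one, coeff_C_mul, coeff_C] at this
        simp at this
      have e2 : ev S.x S.y (X - C (C b) * C X) = Q.y * S.x := by
        rw [map_sub, map_mul, ev_X, ev_CC, ev_CX, h2]
        field_simp
      have h3 := h _ n2
      rw [e2, v.map_mul _ _ Q.y_ne hx] at h3
      have h4 := h _ CX_ne
      rw [ev_CX, H81.tdeg_CX] at h4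
      have h5 : 1 ≤ tdeg (X - C (C b) * C X : ℂ[X][X]) := by
        have h6 : cf (X - C (C b) * C X : ℂ[X][X]) (0, 1) ≠ 0 := by
          simp [cf]
        exact H81.le_tdeg h6
      omega
    · have h3 := adic_int hg (C X)
      rw [ev_CX] at h3
      have := h3.resolve_left hx
      omega
  · rw [centred_iff, h1, h2, v.map_inv hy, v.map_div hx hy] at hc
    rcases h with h | ⟨g, hg⟩
    · have h4 := h _ CX_ne
      rw [ev_CX, H81.tdeg_CX] at h4
      have h5 := h _ H81.X_ne'
      rw [ev_X, H81.tdeg_X] at h5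
      omega
    · have h3 := adic_int hg X
      rw [ev_X] at h3
      have := h3.resolve_left hy
      omega

/-- A plane curve passes through a point of the plane. -/
theorem plane_through {S : Coord L} {v : DVal L} (h : PlaneCur S v) :
    ∃ R ∈ plane S, Through R v := by
  obtain ⟨R, hR, hn⟩ := complete_plane S v
  exact ⟨R, hR, (through_or_centred hn).resolve_right (plane_not_centred h hR)⟩

/-- Curves are curves on the following surfaces. -/
theorem through_up {S : Coord L} {k : ℕ} {R : Fin k → Subalgebra ℂ L} {v : DVal L} {i j : ℕ}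
    (hij : i ≤ j) (h : ∃ R' ∈ surf S R i, Through R' v) : ∃ R' ∈ surf S R j, Through R' v := by
  induction j, hij using Nat.le_induction with
  | base => exact h
  | succ j _ ih =>
    obtain ⟨R', h1, h2⟩ := ih
    by_cases hj : j < k
    · rw [surf, dif_pos hj]
      by_cases he : R' = R ⟨j, hj⟩
      · obtain ⟨P, rfl⟩ := surf_coord h1
        obtain ⟨R'', h3, h4⟩ := st_A13' L P v h2
        exact ⟨R'', Or.inr (by rw [← he]; exact h3), h4⟩
      · exact ⟨R', Or.inl ⟨h1, he⟩, h2⟩
    · rw [surf, dif_neg hj]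
      exact ⟨R', h1, h2⟩

/-- Centres on the preceding surfaces. -/
theorem centred_down {S : Coord L} {k : ℕ} {R : Fin k → Subalgebra ℂ L}
    (hv : ∀ i : Fin k, R i ∈ surf S R i) {v : DVal L} {i j : ℕ}
    (hij : i ≤ j) (h : ∃ R' ∈ surf S R j, Centred R' v) : ∃ R' ∈ surf S R i, Centred R' v := by
  induction j, hij using Nat.le_induction with
  | base => exact h
  | succ j _ ih =>
    apply ih
    obtain ⟨R', h1, h2⟩ := h
    by_cases hj : j < k
    · rw [surf, dif_pos hj] at h1
      rcases h1 with h1 | h1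
      · exact ⟨R', h1.1, h2⟩
      · exact ⟨_, hv ⟨j, hj⟩, (st_A13 L _ _ v h1).2.2.1 h2⟩
    · rw [surf, dif_neg hj] at h1
      exact ⟨R', h1, h2⟩

/-- The curves of the surfaces: one half of A17. -/
theorem cur_cases {S : Coord L} {k : ℕ} {R : Fin k → Subalgebra ℂ L}
    (hv : ∀ i : Fin k, R i ∈ surf S R i) {v : DVal L} (j : ℕ) :
    ∀ R' ∈ surf S R j, Through R' v → PlaneCur S v ∨ ∃ i : Fin k, (i : ℕ) < j ∧ IsOrd (R i) v := by
  induction j with
  | zero => exact fun R' h1 h2 => Or.inl (plane_cur h1 h2)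
  | succ j ih =>
    intro R' h1 h2
    have up : (PlaneCur S v ∨ ∃ i : Fin k, (i : ℕ) < j ∧ IsOrd (R i) v) →
        (PlaneCur S v ∨ ∃ i : Fin k, (i : ℕ) < j + 1 ∧ IsOrd (R i) v) := by
      rintro (h | ⟨i, h3, h4⟩)
      · exact Or.inl h
      · exact Or.inr ⟨i, by omega, h4⟩
    by_cases hj : j < k
    · rw [surf, dif_pos hj] at h1
      rcases h1 with h1 | h1
      · exact up (ih R' h1.1 h2)
      · rcases (st_A13 L _ _ v h1).2.2.2.1 h2 with h3 | h3
        · exact up (ih _ (hv ⟨j, hj⟩) h3)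
        · exact Or.inr ⟨⟨j, hj⟩, by simp, h3⟩
    · rw [surf, dif_neg hj] at h1
      exact up (ih R' h1 h2)

/-- The exceptional curve passes through a point of the blow-up. -/
theorem ord_through {S : Coord L} {k : ℕ} {R : Fin k → Subalgebra ℂ L}
    {v : DVal L} {i : Fin k} (h : IsOrd (R i) v) :
    ∃ R' ∈ surf S R (i + 1), Through R' v := by
  obtain ⟨P, hP, hs⟩ := isOrd_same h
  have hN : Next (R i) (P.st none).loc := by rw [← hP]; exact next_iff.2 ⟨none, rfl⟩
  refine ⟨(P.st none).loc, ?_, ((st_A13 L _ _ v hN).2.2.2.2 h).1⟩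
  rw [surf, dif_pos i.2]
  exact Or.inr hN

/-- A17. -/
theorem st_A17 : ST_A17 := by
  intro L _ _ k T v
  constructor
  · rintro ⟨R', h1, h2⟩
    rcases cur_cases T.valid k R' h1 h2 with h | ⟨i, -, h⟩
    · exact Or.inl h
    · exact Or.inr ⟨i, h⟩
  · rintro (h | ⟨i, h⟩)
    · exact through_up (Nat.zero_le k) (plane_through h)
    · exact through_up i.2 (ord_through h)

theorem ord_centred {R : Subalgebra ℂ L} {v : DVal L} (h : IsOrd R v) : Centred R v := by
  obtain ⟨P, rfl, hs⟩ := isOrd_same h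
  rw [centred_iff, hs _ P.x_ne, hs _ P.y_ne, ord_x, ord_y]
  exact ⟨one_pos, one_pos⟩

/-- A curve of a surface has no centre at a point of it. -/
theorem not_both {S : Coord L} {k : ℕ} {R : Fin k → Subalgebra ℂ L}
    (hv : ∀ i : Fin k, R i ∈ surf S R i) {v : DVal L} {j : ℕ}
    (h1 : ∃ R' ∈ surf S R j, Through R' v) (h2 : ∃ R' ∈ surf S R j, Centred R' v) : False := by
  obtain ⟨R1, h3, h4⟩ := h1
  obtain ⟨R2, h5, h6⟩ := h2
  have := sep_surf hv j R2 h5 R1 h3 v h6 h4.1
  subst this
  exact not_centred_of_through h4 h6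

theorem ord_unique {S : Coord L} {k : ℕ} {R : Fin k → Subalgebra ℂ L}
    (hv : ∀ i : Fin k, R i ∈ surf S R i) {v : DVal L} {i j : Fin k} (hi : IsOrd (R i) v)
    (hj : IsOrd (R j) v) : ¬ i < j := by
  intro hlt
  exact not_both hv (j := j) (through_up (Nat.succ_le_of_lt hlt) (ord_through hi))
    ⟨_, hv j, ord_centred hj⟩

/-- A18. -/
theorem st_A18 : ST_A18 := by
  intro L _ _ k T i v hi
  have hc : ∃ R' ∈ surf T.S T.R i, Centred R' v := ⟨_, T.valid i, ord_centred hi⟩
  have hpc : ¬ PlaneCur T.S v := by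
    intro h
    exact not_both T.valid (j := i) (through_up (Nat.zero_le _) (plane_through h)) hc
  have huniq : ∀ j, IsOrd (T.R j) v → j = i := by
    intro j hj
    exact le_antisymm (not_lt.1 (ord_unique T.valid hi hj)) (not_lt.1 (ord_unique T.valid hj hi))
  refine ⟨hpc, ?_, huniq, ?_, ?_⟩
  · unfold deg
    rw [if_neg fun h => hpc (Or.inl h)]
    have : {n : ℕ | ∃ g, IsAdic T.S g v ∧ tdeg g = n} = ∅ := by
      ext n
      simp only [Set.mem_ofPred_eq, Set.mem_empty_iff_false, iff_false]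
      rintro ⟨g, hg, -⟩
      exact hpc (Or.inr ⟨g, hg⟩)
    rw [this, Nat.sInf_empty]
    rfl
  · intro j hj h
    exact not_both T.valid (j := i) (through_up (le_of_lt hj) ⟨_, T.valid j, h⟩) hc
  · -- the multiplicity at the later points
    have key : ∀ n, (i : ℕ) < n → n ≤ k → ∀ R' ∈ surf T.S T.R n, Through R' v → mul R' v = 1 := by
      intro n hn
      induction n, hn using Nat.le_induction with
      | base =>
        intro hk R' h1 h2
        rw [Nat.succ_eq_add_one, surf, dif_pos i.2] at h1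
        rcases h1 with h1 | h1
        · exfalso
          exact not_both T.valid (j := i) ⟨R', h1.1, h2⟩ hc
        · exact ((st_A13 L _ _ v h1).2.2.2.2 hi).2
      | succ n hn ih =>
        intro hk R' h1 h2
        have hk' : n < k := hk
        rw [surf, dif_pos hk'] at h1
        rcases h1 with h1 | h1
        · exact ih hk'.le R' h1.1 h2
        · rcases (st_A13 L _ _ v h1).2.2.2.1 h2 with h3 | h3
          · have h4 := ih hk'.le _ (T.valid ⟨n, hk'⟩) h3
            obtain ⟨P, hP⟩ := surf_coord (T.valid ⟨n, hk'⟩)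
            rw [← hP] at h1 h3 h4
            obtain ⟨o, rfl⟩ := next_iff.1 h1
            have h5 := mul_st h3 h2
            omega
          · have h4 := huniq _ h3
            have : n = (i : ℕ) := congrArg Fin.val h4
            omega
    intro j hj
    by_cases hth : Through (T.R j) v
    · exact Or.inr (key j hj j.2.le _ (T.valid j) hth)
    · left
      unfold mul
      rw [if_neg, if_neg hth]
      intro h
      exact (ne_of_lt hj).symm (huniq j h)

end H98

end

end LCY
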