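import Pool.Agent.Helper98.LCY.Ord

/-! Restriction of the order at an irreducible polynomial to a field of transcendence degree two
(MP_f7e214_ag): it is trivial or a multiple of a divisorial valuation. -/

open Polynomial

namespace LCY

noncomputable section

variable {K : Type} [Field K] [Algebra ℂ K] {L : Type} [Field L] [Algebra ℂ L]
variable {P : K[X]} {hP : Irreducible P} (i : L →ₐ[ℂ] RatFunc K)

namespace H98

theorem map_ne {z : L} (hz : z ≠ 0) : i z ≠ 0 := fun h => hz (i.toRingHom.injective (by
  show i z = i 0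
  rw [h, map_zero]))

theorem ordP_neg {a : RatFunc K} (ha : a ≠ 0) : ordP P hP (-a) = ordP P hP a := by
  have h : -a = algebraMap K (RatFunc K) (-1) * a := by simp
  rw [h, ordP_mul (by simp) ha, ordP_C (by simp), zero_add]

/-- The sum of two functions of different order. -/
theorem ordP_add_lt {a b : RatFunc K} (ha : a ≠ 0)
    (h : b = 0 ∨ ordP P hP a < ordP P hP b) : a + b ≠ 0 ∧ ordP P hP (a + b) = ordP P hP a := by
  rcases h with h | h
  · subst h; rw [add_zero]; exact ⟨ha, rfl⟩
  by_cases hb : b = 0
  · subst hb; rw [add_zero]; exact ⟨ha, rfl⟩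
  have hne : a + b ≠ 0 := by
    intro h0
    have h1 : a = -b := eq_neg_of_add_eq_zero_left h0
    rw [h1, ordP_neg hb] at h
    exact lt_irrefl _ h
  refine ⟨hne, ?_⟩
  have h1 := ordP_add (P := P) (hP := hP) ha hb hne
  rw [min_eq_left h.le] at h1
  have h2 := ordP_add (P := P) (hP := hP) hne (neg_ne_zero.2 hb)
    (by rw [add_neg_cancel_right]; exact ha)
  rw [add_neg_cancel_right, ordP_neg hb] at h2
  rcases min_le_iff.1 h2 with h3 | h3
  · exact le_antisymm h3 h1
  · omega

/-- A finite sum of functions of order greater than `m` is zero or has order greater than `m`. -/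
theorem ordP_sum_lt {ι : Type} (s : Finset ι) (f : ι → RatFunc K) (m : ℤ)
    (h : ∀ j ∈ s, f j = 0 ∨ m < ordP P hP (f j)) :
    (∑ j ∈ s, f j) = 0 ∨ m < ordP P hP (∑ j ∈ s, f j) := by
  classical
  induction s using Finset.induction_on with
  | empty => left; simp
  | insert a s ha ih =>
    rw [Finset.sum_insert ha]
    have h1 := h a (Finset.mem_insert_self a s)
    have h2 := ih fun j hj => h j (Finset.mem_insert_of_mem hj)
    rcases h1 with h1 | h1
    · rw [h1, zero_add]; exact h2
    rcases h2 with h2 | h2
    · rw [h2, add_zero]; exact Or.inr h1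
    by_cases hf : f a = 0
    · rw [hf, zero_add]; exact Or.inr h2
    by_cases hg : (∑ j ∈ s, f j) = 0
    · rw [hg, add_zero]; exact Or.inr h1
    by_cases hfg : f a + ∑ j ∈ s, f j = 0
    · exact Or.inl hfg
    right
    exact lt_of_lt_of_le (lt_min h1 h2) (ordP_add hf hg hfg)

/-- All residues of functions of `L` of order zero are complex numbers. -/
def ResC (P : K[X]) (hP : Irreducible P) (i : L →ₐ[ℂ] RatFunc K) : Prop :=
  ∀ z : L, z ≠ 0 → ordP P hP (i z) = 0 → ∃ c : ℂ, z = algebraMap ℂ L c ∨
    0 < ordP P hP (i (z - algebraMap ℂ L c))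

/-- Functions of `L` that are independent over the complex numbers stay independent over `K`. -/
theorem indep (hres : ResC P hP i) {ι : Type} :
    ∀ (n : ℕ) (s : Finset ι), s.card = n → ∀ (m : ι → L),
      (∀ a : ι → ℂ, ∑ j ∈ s, algebraMap ℂ L (a j) * m j = 0 → ∀ j ∈ s, a j = 0) →
      ∀ k : ι → K, ∑ j ∈ s, algebraMap K (RatFunc K) (k j) * i (m j) = 0 → ∀ j ∈ s, k j = 0 := by
  classical
  intro n
  induction n with
  | zero =>
    intro s hs m _ k _ j hj
    rw [Finset.card_eq_zero] at hs
    subst hs
    exact absurd hj (Finset.notMem_empty j)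
  | succ n ih =>
    intro s hs m hm k hk
    have hsne : s.Nonempty := Finset.card_pos.1 (by omega)
    have hmne : ∀ j ∈ s, m j ≠ 0 := by
      intro j hj h0
      have := hm (fun l => if l = j then 1 else 0) (by
        refine Finset.sum_eq_zero fun l _ => ?_
        by_cases hl : l = j
        · subst hl; rw [h0, mul_zero]
        · simp [hl]) j hj
      simp at this
    obtain ⟨j0, hj0, hmin⟩ := s.exists_min_image (fun j => ordP P hP (i (m j))) hsne
    have h0 := hmne j0 hj0
    -- choose the constants
    have hc : ∀ j : ι, ∃ c : ℂ, j ∈ s → j ≠ j0 → m j - algebraMap ℂ L c * m j0 = 0 ∨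
        ordP P hP (i (m j0)) < ordP P hP (i (m j - algebraMap ℂ L c * m j0)) := by
      intro j
      by_cases hj : j ∈ s
      · rcases (hmin j hj).lt_or_eq with h1 | h1
        · refine ⟨0, fun _ _ => Or.inr ?_⟩
          rwa [map_zero, zero_mul, sub_zero]
        · have hne : m j / m j0 ≠ 0 := div_ne_zero (hmne j hj) h0
          have h2 : ordP P hP (i (m j / m j0)) = 0 := by
            rw [map_div₀, div_eq_mul_inv, ordP_mul (map_ne i (hmne j hj))
              (inv_ne_zero (map_ne i h0)), ordP_inv, h1]
            ring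
          obtain ⟨c, hc | hc⟩ := hres _ hne h2
          · refine ⟨c, fun _ _ => Or.inl ?_⟩
            rw [← hc, div_mul_cancel₀ _ h0, sub_self]
          · refine ⟨c, fun _ _ => ?_⟩
            by_cases h3 : m j - algebraMap ℂ L c * m j0 = 0
            · exact Or.inl h3
            right
            have h4 : m j - algebraMap ℂ L c * m j0 = (m j / m j0 - algebraMap ℂ L c) * m j0 := by
              rw [sub_mul, div_mul_cancel₀ _ h0]
            have h5 : m j / m j0 - algebraMap ℂ L c ≠ 0 := by
              intro h5; rw [h4, h5, zero_mul] at h3; exact h3 rfl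
            rw [h4, map_mul, ordP_mul (map_ne i h5) (map_ne i h0)]
            omega
      · exact ⟨0, fun h => absurd h hj⟩
    choose c hc using hc
    set m' : ι → L := fun j => m j - algebraMap ℂ L (c j) * m j0 with hm'
    set s' := s.erase j0 with hs'
    have hcard : s'.card = n := by
      rw [hs', Finset.card_erase_of_mem hj0]; omega
    have hmem : ∀ j ∈ s', j ∈ s ∧ j ≠ j0 := fun j hj =>
      ⟨Finset.mem_of_mem_erase hj, Finset.ne_of_mem_erase hj⟩
    have hsplitL : ∀ a : ι → L, ∑ j ∈ s, a j = a j0 + ∑ j ∈ s', a j :=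
      fun a => (Finset.add_sum_erase s a hj0).symm
    have hsplitK : ∀ a : ι → RatFunc K, ∑ j ∈ s, a j = a j0 + ∑ j ∈ s', a j :=
      fun a => (Finset.add_sum_erase s a hj0).symm
    -- independence of the new family
    have hind : ∀ a : ι → ℂ, ∑ j ∈ s', algebraMap ℂ L (a j) * m' j = 0 → ∀ j ∈ s', a j = 0 := by
      intro a ha j hj
      set b : ι → ℂ := fun l => if l = j0 then - ∑ l ∈ s', a l * c l else a l with hb
      have h1 : ∑ l ∈ s, algebraMap ℂ L (b l) * m l = 0 := by
        rw [hsplitL]
        have h2 : ∑ l ∈ s', algebraMap ℂ L (b l) * m l = ∑ l ∈ s', algebraMap ℂ L (a l) * m l := by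
          refine Finset.sum_congr rfl fun l hl => ?_
          rw [hb]; simp only [(hmem l hl).2, if_false]
        have h3 : b j0 = - ∑ l ∈ s', a l * c l := by rw [hb]; simp
        rw [h2, h3]
        have h4 : ∑ l ∈ s', algebraMap ℂ L (a l) * m' l =
            ∑ l ∈ s', algebraMap ℂ L (a l) * m l -
              (∑ l ∈ s', algebraMap ℂ L (a l * c l)) * m j0 := by
          rw [Finset.sum_mul, ← Finset.sum_sub_distrib]
          refine Finset.sum_congr rfl fun l _ => ?_
          rw [hm', map_mul]; ring
        rw [h4] at ha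
        rw [map_neg, map_sum]
        linear_combination ha
      have h5 := hm b h1 j (hmem j hj).1
      rw [hb] at h5
      simpa [(hmem j hj).2] using h5
    -- the relation
    have hrel : algebraMap K (RatFunc K)
          (k j0 + ∑ j ∈ s', k j * algebraMap ℂ K (c j)) * i (m j0) +
        ∑ j ∈ s', algebraMap K (RatFunc K) (k j) * i (m' j) = 0 := by
      rw [hsplitK] at hk
      have h4 : ∑ l ∈ s', algebraMap K (RatFunc K) (k l) * i (m' l) =
          ∑ l ∈ s', algebraMap K (RatFunc K) (k l) * i (m l) -
            (∑ l ∈ s', algebraMap K (RatFunc K) (k l * algebraMap ℂ K (c l))) * i (m j0) := by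
        rw [Finset.sum_mul, ← Finset.sum_sub_distrib]
        refine Finset.sum_congr rfl fun l _ => ?_
        rw [hm', map_sub, map_mul, i.commutes, map_mul, ← IsScalarTower.algebraMap_apply]
        ring
      rw [h4, map_add, map_sum]
      linear_combination hk
    have hk0 : k j0 + ∑ j ∈ s', k j * algebraMap ℂ K (c j) = 0 := by
      by_contra hne
      have h6 : algebraMap K (RatFunc K)
          (k j0 + ∑ j ∈ s', k j * algebraMap ℂ K (c j)) ≠ 0 := by
        intro h; apply hne
        exact (algebraMap K (RatFunc K)).injective (by rw [h, map_zero])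
      have h7 := ordP_sum_lt (P := P) (hP := hP) s'
        (fun j => algebraMap K (RatFunc K) (k j) * i (m' j)) (ordP P hP (i (m j0))) (by
          intro j hj
          by_cases hkj : k j = 0
          · left; rw [hkj, map_zero, zero_mul]
          rcases hc j (hmem j hj).1 (hmem j hj).2 with h8 | h8
          · left
            have : m' j = 0 := h8
            rw [this, map_zero, mul_zero]
          · by_cases h9 : m' j = 0
            · left; rw [h9, map_zero, mul_zero]
            right
            have h10 : algebraMap K (RatFunc K) (k j) ≠ 0 := by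
              intro h; apply hkj
              exact (algebraMap K (RatFunc K)).injective (by rw [h, map_zero])
            rw [ordP_mul h10 (map_ne i h9), ordP_C hkj, zero_add]
            exact h8)
      have h11 : ordP P hP (algebraMap K (RatFunc K)
          (k j0 + ∑ j ∈ s', k j * algebraMap ℂ K (c j)) * i (m j0)) = ordP P hP (i (m j0)) := by
        rw [ordP_mul h6 (map_ne i h0), ordP_C hne, zero_add]
      rw [← h11] at h7
      exact (ordP_add_lt (mul_ne_zero h6 (map_ne i h0)) h7).1 hrel
    rw [hk0, map_zero, zero_mul, zero_add] at hrel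
    have hall := ih s' hcard m' hind k hrel
    intro j hj
    by_cases hjj : j = j0
    · subst hjj
      rw [Finset.sum_eq_zero (fun l hl => by rw [hall l hl, zero_mul]), add_zero] at hk0
      exact hk0
    · exact hall j (Finset.mem_erase.2 ⟨hjj, hj⟩)

/-- If all residues are complex numbers, the transcendence degree does not drop. -/
theorem algInd (hres : ResC P hP i) {x : Fin 2 → L} (hx : AlgebraicIndependent ℂ x) :
    AlgebraicIndependent K (fun j => i (x j)) := by
  classical
  rw [algebraicIndependent_iff]
  intro F hF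
  have hmon : ∀ d : Fin 2 →₀ ℕ, i (d.prod fun j n => x j ^ n) =
      d.prod fun j n => i (x j) ^ n := by
    intro d
    unfold Finsupp.prod
    rw [map_prod]
    exact Finset.prod_congr rfl fun j _ => by rw [map_pow]
  have h1 : ∑ d ∈ F.support, algebraMap K (RatFunc K) (F.coeff d) *
      i (d.prod fun j n => x j ^ n) = 0 := by
    rw [← hF, MvPolynomial.aeval_def, MvPolynomial.eval₂_eq]
    refine Finset.sum_congr rfl fun d _ => ?_
    rw [hmon]
    congr 1
  have h2 := indep i hres F.support.card F.support rfl (fun d => d.prod fun j n => x j ^ n) (by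
    intro a ha
    set G : MvPolynomial (Fin 2) ℂ := ∑ d ∈ F.support, MvPolynomial.monomial d (a d) with hG
    have h3 : MvPolynomial.aeval x G = 0 := by
      rw [← ha, hG, map_sum]
      refine Finset.sum_congr rfl fun d _ => ?_
      rw [MvPolynomial.aeval_monomial]
    have h4 : G = 0 := (algebraicIndependent_iff.1 hx) G h3
    intro d hd
    have h5 : G.coeff d = a d := by
      rw [hG, MvPolynomial.coeff_sum, Finset.sum_eq_single d]
      · simp
      · intro e _ he
        rw [MvPolynomial.coeff_monomial, if_neg he]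
      · intro h; exact absurd hd h
    rw [← h5, h4, MvPolynomial.coeff_zero]) (fun d => F.coeff d) h1
  ext d
  by_cases hd : d ∈ F.support
  · rw [h2 d hd, MvPolynomial.coeff_zero]
  · rw [MvPolynomial.notMem_support_iff.1 hd, MvPolynomial.coeff_zero]

theorem trdeg_ratFunc : Algebra.trdeg K (RatFunc K) = 1 := by
  have h1 := _root_.trdeg_add_eq K K[X] (A := RatFunc K)
  have h2 : Algebra.trdeg K[X] (RatFunc K) = 0 := by
    have : Algebra.IsAlgebraic K[X] (RatFunc K) :=
      IsLocalization.isAlgebraic (R := K[X]) (S := RatFunc K) (nonZeroDivisors K[X])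
    exact _root_.trdeg_eq_zero
  rw [h2, add_zero, Polynomial.trdeg_of_isDomain] at h1
  exact h1.symm

theorem exists_basis (htr : Algebra.trdeg ℂ L = 2) :
    ∃ x : Fin 2 → L, AlgebraicIndependent ℂ x := by
  obtain ⟨s, hs⟩ := exists_isTranscendenceBasis ℂ L
  have h1 := hs.cardinalMk_eq_trdeg
  rw [htr] at h1
  have h2 : Cardinal.mk (Fin 2) = Cardinal.mk s := by rw [h1]; simp
  obtain ⟨f⟩ := Cardinal.eq.1 h2
  exact ⟨fun j => (f j : L), hs.1.comp _ f.injective⟩

/-- Some function of order zero has a residue that is not a complex number. -/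
theorem not_resC (htr : Algebra.trdeg ℂ L = 2) : ¬ ResC P hP i := by
  intro h
  obtain ⟨x, hx⟩ := exists_basis htr
  have h1 := (algInd i h hx).cardinalMk_le_trdeg
  rw [trdeg_ratFunc] at h1
  simp at h1

theorem ordP_const {c : ℂ} (hc : c ≠ 0) : ordP P hP (i (algebraMap ℂ L c)) = 0 := by
  rw [i.commutes, IsScalarTower.algebraMap_apply ℂ K (RatFunc K)]
  exact ordP_C (by simpa using hc)

end H98

open H98

/-- The restriction of the order at `P` to a field of transcendence degree two is trivial or a
positive multiple of a divisorial valuation. -/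
theorem abh (htr : Algebra.trdeg ℂ L = 2) (P : K[X]) (hP : Irreducible P)
    (i : L →ₐ[ℂ] RatFunc K) :
    (∀ z : L, z ≠ 0 → ordP P hP (i z) = 0) ∨ ∃ (v : DVal L) (e : ℤ), 0 < e ∧
      ∀ z : L, z ≠ 0 → ordP P hP (i z) = e * v.v z := by
  classical
  by_cases htriv : ∀ z : L, z ≠ 0 → ordP P hP (i z) = 0
  · exact Or.inl htriv
  right
  push Not at htriv
  obtain ⟨z0, hz0, hw0⟩ := htriv
  set w : L → ℤ := fun z => ordP P hP (i z) with hw
  have wmul : ∀ a b : L, a ≠ 0 → b ≠ 0 → w (a * b) = w a + w b := by
    intro a b ha hb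
    show ordP P hP (i (a * b)) = _
    rw [map_mul, ordP_mul (map_ne i ha) (map_ne i hb)]
  have winv : ∀ a : L, w a⁻¹ = - w a := by
    intro a
    show ordP P hP (i a⁻¹) = _
    rw [map_inv₀, ordP_inv]
  have wadd : ∀ a b : L, a ≠ 0 → b ≠ 0 → a + b ≠ 0 → min (w a) (w b) ≤ w (a + b) := by
    intro a b ha hb hab
    show _ ≤ ordP P hP (i (a + b))
    rw [map_add]
    exact ordP_add (map_ne i ha) (map_ne i hb) (by rw [← map_add]; exact map_ne i hab)
  have wone : w 1 = 0 := by
    have := wmul 1 1 one_ne_zero one_ne_zero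
    rw [mul_one] at this
    omega
  have wpow : ∀ (a : L) (n : ℕ), a ≠ 0 → w (a ^ n) = n * w a := by
    intro a n ha
    induction n with
    | zero => rw [pow_zero, wone]; simp
    | succ n ih => rw [pow_succ, wmul _ _ (pow_ne_zero n ha) ha, ih]; push_cast; ring
  have wzpow : ∀ (a : L) (n : ℤ), a ≠ 0 → w (a ^ n) = n * w a := by
    intro a n ha
    obtain ⟨m, rfl | rfl⟩ := Int.eq_nat_or_neg n
    · rw [zpow_natCast, wpow a m ha]
    · rw [zpow_neg, zpow_natCast, winv, wpow a m ha]; ring
  have hex : ∃ n : ℕ, 0 < n ∧ ∃ z : L, z ≠ 0 ∧ w z = n := by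
    rcases lt_trichotomy (w z0) 0 with h | h | h
    · exact ⟨(-(w z0)).toNat, by omega, z0⁻¹, inv_ne_zero hz0, by rw [winv]; omega⟩
    · exact absurd h hw0
    · exact ⟨(w z0).toNat, by omega, z0, hz0, by omega⟩
  set e := Nat.find hex with he
  obtain ⟨hepos, π, hπ, hwπ⟩ := Nat.find_spec hex
  rw [← he] at hepos hwπ
  have hmin : ∀ m : ℕ, 0 < m → (∃ z : L, z ≠ 0 ∧ w z = m) → e ≤ m :=
    fun m hm h => Nat.find_min' hex ⟨hm, h⟩
  have hdvd : ∀ z : L, z ≠ 0 → (e : ℤ) ∣ w z := by
    intro z hz
    by_contra hnd
    have h1 : 0 < w z % e := by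
      have h2 := Int.emod_nonneg (w z) (by omega : (e : ℤ) ≠ 0)
      have h3 : w z % e ≠ 0 := fun h => hnd (Int.dvd_of_emod_eq_zero h)
      omega
    have h2 : w z % e < e := Int.emod_lt_of_pos _ (by omega)
    have h3 : w (z * π ^ (-(w z / e))) = w z % e := by
      rw [wmul _ _ hz (zpow_ne_zero _ hπ), wzpow _ _ hπ, hwπ]
      have := Int.emod_add_mul_ediv (w z) e
      linear_combination -this
    have h4 := hmin (w z % e).toNat (by omega)
      ⟨_, mul_ne_zero hz (zpow_ne_zero _ hπ), by rw [h3]; omega⟩
    omega
  have hval : ∀ z : L, z ≠ 0 → w z = e * (w z / e) := fun z hz =>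
    (Int.mul_ediv_cancel' (hdvd z hz)).symm
  have he0 : (0 : ℤ) < e := by omega
  -- a residually transcendental element
  have hres : ∃ t : L, ResTr (fun z => w z / e) t := by
    by_contra hno
    push Not at hno
    apply not_resC (P := P) (hP := hP) i htr
    intro z hz hwz
    have h1 := hno z
    unfold ResTr at h1
    push Not at h1
    obtain ⟨Q, hQ, hQ2⟩ := h1
    -- the value of a polynomial in `z` is nonnegative
    have hzi : ∀ n : ℕ, w (z ^ n) = 0 := fun n => by
      rw [wpow z n hz]; show (n : ℤ) * ordP P hP (i z) = 0; rw [hwz, mul_zero]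
    have hpoly : ∀ (n : ℕ) (R : ℂ[X]), R.natDegree ≤ n → R ≠ 0 →
        (aeval z R = 0 ∨ w (aeval z R) ≠ 0) →
        ∃ c : ℂ, z = algebraMap ℂ L c ∨ 0 < w (z - algebraMap ℂ L c) := by
      intro n
      induction n with
      | zero =>
        intro R hR hne hv
        exfalso
        rw [eq_C_of_natDegree_eq_zero (Nat.le_zero.1 hR), aeval_C] at hv
        have hc : R.coeff 0 ≠ 0 := by
          intro h
          apply hne
          rw [eq_C_of_natDegree_eq_zero (Nat.le_zero.1 hR), h, C_0]
        rcases hv with hv | hv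
        · exact hc (by simpa using hv)
        · exact hv (ordP_const i hc)
      | succ n ih =>
        intro R hR hne hv
        by_cases hd : R.natDegree = 0
        · exact ih R (by omega) hne hv
        obtain ⟨c, hc⟩ := IsAlgClosed.exists_root R (by
          intro h
          exact hd (natDegree_eq_of_degree_eq_some h))
        obtain ⟨S, rfl⟩ := dvd_iff_isRoot.2 hc
        have hS : S ≠ 0 := right_ne_zero_of_mul hne
        have hx : (X - C c : ℂ[X]) ≠ 0 := X_sub_C_ne_zero c
        have hdeg : ((X - C c) * S).natDegree = 1 + S.natDegree := by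
          rw [natDegree_mul hx hS, natDegree_X_sub_C]
        have h3 : aeval z ((X - C c) * S) = (z - algebraMap ℂ L c) * aeval z S := by
          rw [map_mul, map_sub, aeval_X, aeval_C]
        rw [h3] at hv
        by_cases h4 : z - algebraMap ℂ L c = 0
        · exact ⟨c, Or.inl (sub_eq_zero.1 h4)⟩
        by_cases h5 : 0 < w (z - algebraMap ℂ L c)
        · exact ⟨c, Or.inr h5⟩
        have h6 : w (z - algebraMap ℂ L c) = 0 := by
          by_cases hc0 : c = 0
          · subst hc0
            rw [map_zero, sub_zero]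
            exact hwz
          have h7 := wadd z (algebraMap ℂ L (-c)) hz (by simpa using hc0)
            (by rw [map_neg, ← sub_eq_add_neg]; exact h4)
          have h8 : w (algebraMap ℂ L (-c)) = 0 := ordP_const i (neg_ne_zero.2 hc0)
          have h9 : w z = 0 := hwz
          rw [h8, h9, min_self, map_neg, ← sub_eq_add_neg] at h7
          omega
        refine ih S (by omega) hS ?_
        rcases hv with hv | hv
        · exact Or.inl ((mul_eq_zero.1 hv).resolve_left h4)
        · by_cases h7 : aeval z S = 0
          · exact Or.inl h7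
          right
          rw [wmul _ _ h4 h7, h6, zero_add] at hv
          exact hv
    refine hpoly Q.natDegree Q le_rfl hQ ?_
    by_cases h2 : aeval z Q = 0
    · exact Or.inl h2
    · right
      intro h3
      apply hQ2 h2
      show w (aeval z Q) / e = 0
      rw [h3, Int.zero_ediv]
  refine ⟨⟨fun z => w z / e, ?_, ?_, ?_, ⟨π, hπ, ?_⟩, hres⟩, e, he0, fun z hz => ?_⟩
  · intro a b ha hb
    have h1 := hval a ha
    have h2 := hval b hb
    have h3 := wmul a b ha hb
    have h4 := hval (a * b) (mul_ne_zero ha hb)
    have h5 : (e : ℤ) * (w (a * b) / e) = e * (w a / e + w b / e) := by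
      rw [mul_add, ← h1, ← h2, ← h4, h3]
    exact mul_left_cancel₀ he0.ne' h5
  · intro a b ha hb hab
    have h3 := wadd a b ha hb hab
    rcases min_le_iff.1 h3 with h | h
    · exact (min_le_left _ _).trans (Int.ediv_le_ediv he0 h)
    · exact (min_le_right _ _).trans (Int.ediv_le_ediv he0 h)
  · intro c hc
    show w _ / e = 0
    have : w (algebraMap ℂ L c) = 0 := ordP_const i hc
    rw [this, Int.zero_ediv]
  · show w π / e = 1
    rw [hwπ, Int.ediv_self he0.ne']
  · exact hval z hz

/-- The restriction of the place of `P` to a field of transcendence degree two is trivial or a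
divisorial valuation. -/
theorem abh_reg (htr : Algebra.trdeg ℂ L = 2) (P : K[X]) (hP : Irreducible P)
    (i : L →ₐ[ℂ] RatFunc K) :
    (∀ z : L, RegAtT P (i z)) ∨ ∃ v : DVal L, ∀ z : L, v.Int z ↔ RegAtT P (i z) := by
  rcases abh htr P hP i with h | ⟨v, e, he, h⟩
  · left
    intro z
    by_cases hz : z = 0
    · subst hz; rw [map_zero]; exact regAtT_zero hP
    · rw [regAtT_iff (hP := hP) (map_ne i hz), h z hz]
  · right
    refine ⟨v, fun z => ?_⟩
    by_cases hz : z = 0
    · subst hz; rw [map_zero]; exact ⟨fun _ => regAtT_zero hP, fun _ => Or.inl rfl⟩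
    · rw [regAtT_iff (hP := hP) (map_ne i hz), h z hz]
      unfold DVal.Int
      constructor
      · rintro (h1 | h1)
        · exact absurd h1 hz
        · exact mul_nonneg he.le h1
      · intro h1
        exact Or.inr (nonneg_of_mul_nonneg_right h1 he)

end

end LCY
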