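import Pool.Agent.Helper98.LCY.LocG
import Pool.Agent.Helper74.LY.T0B

/-!
Row T0PT of MP_f7e214_ag, the curves of the affine plane: they are not contracted and have
weight zero.
-/

open Polynomial Pool.Agent.Helper82.LCY LCY74

namespace LCY

noncomputable section

variable {L : Type} [Field L] [Algebra ℂ L]

namespace H98

/-- A place of an irreducible polynomial in the coordinates `S'` is a curve of the surface. -/
theorem cur_of_adic {k : ℕ} (T : PStr L k) {S' : Coord L} (hpl : plane S' = plane T.S)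
    {g : ℂ[X][X]} {v : DVal L} (hv : IsAdic S' g v) : T.Cur v := by
  obtain ⟨R, hR, hT⟩ := plane_through (S := S') (v := v) (Or.inr ⟨g, hv⟩)
  rw [hpl] at hR
  exact (st_A17 L k T v).2 (Or.inl (plane_cur hR hT))

theorem t0pl {N k : ℕ} (ω : Bracket L) (x : Fin (N + 1) → L) (T : PStr L k) (hS : State ω x T)
    (hk3 : 3 ≤ k) (hC3 : ST_C3)
    (hW : ∀ v, ∃ n, ω.Wt v n) (S' : Coord L) (hpl : plane S' = plane T.S)
    (hdeg : ∀ v, deg S' v = deg T.S v) (D vL : DVal L) (A B : ℂ)
    (hu : ∀ D', T.Cur D' → ω.Wt D' (-1) → D'.Same D)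
    (hDF : IsAdic S' (X ^ 2 - C (X ^ 3 + C A * X + C B) : ℂ[X][X]) D) (hLi : IsInf S' vL)
    (hL : T.Cur vL) (hL3 : T.cl vL = l3 k)
    (hch : ∀ i j : Fin k, (i : ℕ) + 1 = j → ∃ v ∈ CSet ω x T, T.cl v = ee i j)
    (g : ℂ[X][X]) (v : DVal L) (hg : Irreducible g)
    (hgF : ¬ g ∣ (X ^ 2 - C (X ^ 3 + C A * X + C B) : ℂ[X][X])) (hv : IsPlaceOf S' g v) :
    CYp ω x v := by
  have hA : IsAdic S' g v := adic_of_place hg hv
  have hcur : T.Cur v := cur_of_adic T hpl hA
  have h8 := H81.st_A8 L S' v g hA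
  have hd : 1 ≤ (T.cl v).1 := by
    change 1 ≤ deg T.S v
    rw [← hdeg, h8.1]
    exact_mod_cast h8.2.1
  -- the weight
  have hnD : ¬ v.Same D := by
    intro h
    have h1 : IsAdic S' g D := adic_congr hA h
    have h2 : g ∣ (X ^ 2 - C (X ^ 3 + C A * X + C B) : ℂ[X][X]) := by
      rw [← adic_pos_iff h1 hDF.1.ne_zero, adic_one hDF]
      exact one_pos
    exact hgF h2
  have hwt : ω.Wt v 0 := by
    obtain ⟨n, hn⟩ := hW v
    rcases hS.wt v hcur n hn with h | h
    · rwa [h] at hn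
    · rw [h] at hn
      exact absurd (hu v hcur hn) hnD
  refine ⟨fun hcon => ?_, hwt⟩
  have hK := hS.con v hcur hwt hcon
  have hneg := KK_neg hk3 hS.le (z := T.cl v) (by omega) (by
      intro i j hij
      obtain ⟨w, hw, hwe⟩ := hch i j hij
      rw [← hwe]
      refine hC3 L k T v w hcur hw.1 fun h => ?_
      have h1 := H48.cl_same T h
      rw [h1, hwe] at hd
      simp [ee] at hd) (by
      rw [← hL3]
      refine hC3 L k T v vL hcur hL fun h => ?_
      exact h8.2.2 (fun f hf => by rw [h _ (S'.ne hf)]; exact hLi f hf))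
  omega

end H98

end

end LCY
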