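import Pool.Agent.Helper51.LCY.P2

/-!
ITER: the last step of DV1 (log canonical places over a Du Val point on the boundary)
(MP_f7e214_ag).
-/

open Polynomial IsLocalRing

namespace LCY

noncomputable section

variable {L : Type} [Field L] [Algebra ℂ L]

namespace H98

/-- `x` has value at least `n`. -/
def Ge (v : DVal L) (n : ℤ) (x : L) : Prop := x = 0 ∨ n ≤ v.v x

theorem Ge.mono {v : DVal L} {m n : ℤ} {x : L} (h : Ge v n x) (hm : m ≤ n) : Ge v m x :=
  h.imp_right fun h1 => hm.trans h1

theorem Ge.add {v : DVal L} {n : ℤ} {x y : L} (hx : Ge v n x) (hy : Ge v n y) :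
    Ge v n (x + y) := by
  rcases hx with hx | hx
  · rw [hx, zero_add]; exact hy
  rcases hy with hy | hy
  · rw [hy, add_zero]; exact Or.inr hx
  by_cases h0 : x + y = 0
  · exact Or.inl h0
  by_cases hx0 : x = 0
  · rw [hx0, zero_add]; exact Or.inr hy
  by_cases hy0 : y = 0
  · rw [hy0, add_zero]; exact Or.inr hx
  right
  exact (le_min hx hy).trans (v.map_add x y hx0 hy0 h0)

theorem Ge.mul {v : DVal L} {m n : ℤ} {x y : L} (hx : Ge v m x) (hy : Ge v n y) :
    Ge v (m + n) (x * y) := by
  by_cases hx0 : x = 0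
  · left; rw [hx0, zero_mul]
  by_cases hy0 : y = 0
  · left; rw [hy0, mul_zero]
  right
  rw [v.map_mul x y hx0 hy0]
  have h1 := hx.resolve_left hx0
  have h2 := hy.resolve_left hy0
  omega

theorem Ge.neg {v : DVal L} {n : ℤ} {x : L} (hx : Ge v n x) : Ge v n (-x) := by
  by_cases hx0 : x = 0
  · left; rw [hx0, neg_zero]
  right
  rw [v.map_neg hx0]
  exact hx.resolve_left hx0

theorem Ge.sub {v : DVal L} {n : ℤ} {x y : L} (hx : Ge v n x) (hy : Ge v n y) :
    Ge v n (x - y) := by
  rw [sub_eq_add_neg]; exact hx.add hy.neg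

theorem ge_const (v : DVal L) (c : ℂ) : Ge v 0 (algebraMap ℂ L c) := by
  by_cases hc : c = 0
  · left; rw [hc, map_zero]
  · right; rw [v.map_const c hc]

theorem Ge.smul {v : DVal L} {n : ℤ} {x : L} (hx : Ge v n x) (c : ℂ) :
    Ge v n (algebraMap ℂ L c * x) := by
  have := (ge_const v c).mul hx
  rwa [zero_add] at this

theorem ge_zero (v : DVal L) (n : ℤ) : Ge v n 0 := Or.inl rfl

/-- The value of a polynomial in an element of positive value. -/
theorem poly_val {v : DVal L} {e : L} (he : 0 < v.v e) {U : ℂ[X]}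
    (hU : U.coeff 0 ≠ 0) : aeval e U ≠ 0 ∧ v.v (aeval e U) = 0 := by
  have h1 : aeval e U = algebraMap ℂ L (U.coeff 0) + e * aeval e U.divX := by
    conv_lhs => rw [← divX_mul_X_add U]
    rw [map_add, map_mul, aeval_X, aeval_C]
    ring
  have h2 : v.Pos (e * aeval e U.divX) :=
    v.pos_mul_int (Or.inr he) (v.int_aeval (Or.inr he.le) _)
  have h3 := v.val_add_pos (a := algebraMap ℂ L (U.coeff 0))
    (by rwa [Ne, FaithfulSMul.algebraMap_eq_zero_iff]) (v.map_const _ hU) h2
  rw [h1]
  exact h3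

theorem poly_split {P : ℂ[X]} (hP : P ≠ 0) : ∃ (k : ℕ) (U : ℂ[X]), P = X ^ k * U ∧
    U.coeff 0 ≠ 0 := by
  obtain ⟨U, h1, h2⟩ := exists_eq_pow_rootMultiplicity_mul_and_not_dvd P hP 0
  rw [C_0, sub_zero] at h1 h2
  exact ⟨_, U, h1, fun h => h2 (X_dvd_iff.2 h)⟩

/-- If all elements of a ring `O` with field of fractions `L` are polynomials in an element `e`
of positive value modulo elements of large value, there is no transcendental residue. -/
theorem no_res (v : DVal L) (O : Subalgebra ℂ L)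
    (hfrac : ∀ z : L, ∃ a ∈ O, ∃ b ∈ O, b ≠ 0 ∧ z = a / b) (hint : ∀ x ∈ O, Ge v 0 x)
    (e : L) (he0 : e ≠ 0) (he : 0 < v.v e)
    (hall : ∀ n : ℕ, ∀ x ∈ O, ∃ P : ℂ[X], Ge v n (x - aeval e P)) : False := by
  obtain ⟨τ, hτ⟩ := v.exists_res
  obtain ⟨x, hx, y, hy, hy0, h1⟩ := hfrac τ
  have hτ0 : τ ≠ 0 := by
    have := (hτ X X_ne_zero).1
    rwa [aeval_X] at this
  have hτv : v.v τ = 0 := by
    have := (hτ X X_ne_zero).2
    rwa [aeval_X] at this
  have hx0 : x ≠ 0 := by
    intro h
    rw [h, zero_div] at h1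
    exact hτ0 h1
  have hxy : v.v x = v.v y := by
    rw [h1, v.map_div hx0 hy0] at hτv
    omega
  have hM := (hint y hy).resolve_left hy0
  obtain ⟨n, hn⟩ : ∃ n : ℕ, v.v y = n := ⟨(v.v y).toNat, (Int.toNat_of_nonneg hM).symm⟩
  -- the value of the polynomial part
  have key : ∀ z ∈ O, z ≠ 0 → v.v z = n → ∃ (k : ℕ) (U : ℂ[X]), U.coeff 0 ≠ 0 ∧
      k * v.v e = n ∧ Ge v (n + 1) (z - e ^ k * aeval e U) := by
    intro z hz hz0 hzn
    obtain ⟨P, hP⟩ := hall (n + 1) z hz
    have hP0 : P ≠ 0 := by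
      intro h
      rw [h, map_zero, sub_zero] at hP
      have := hP.resolve_left hz0
      push_cast at this
      omega
    obtain ⟨k, U, rfl, hU⟩ := poly_split hP0
    rw [map_mul, map_pow, aeval_X] at hP
    have h3 := poly_val he hU
    refine ⟨k, U, hU, ?_, by exact_mod_cast hP⟩
    have h4 : v.v (e ^ k * aeval e U) = k * v.v e := by
      rw [v.map_mul _ _ (pow_ne_zero _ he0) h3.1, v.map_pow he0, h3.2, add_zero]
    have h5 : e ^ k * aeval e U ≠ 0 := mul_ne_zero (pow_ne_zero _ he0) h3.1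
    rw [← h4]
    -- both inequalities
    have h6 : Ge v n (e ^ k * aeval e U) := by
      have e1 : e ^ k * aeval e U = z - (z - e ^ k * aeval e U) := by ring
      rw [e1]
      exact Ge.sub (Or.inr hzn.ge) (hP.mono (by push_cast; omega))
    have h7 := h6.resolve_left h5
    by_contra hne
    have h8 : Ge v (n + 1) (e ^ k * aeval e U) := Or.inr (by omega)
    have h9 : Ge v (n + 1) z := by
      have e1 : z = e ^ k * aeval e U + (z - e ^ k * aeval e U) := by ring
      rw [e1]
      exact h8.add (by exact_mod_cast hP)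
    have := h9.resolve_left hz0
    omega
  obtain ⟨k, U, hU, hk, hGx⟩ := key x hx hx0 (hxy.trans hn)
  obtain ⟨k', U', hU', hk', hGy⟩ := key y hy hy0 hn
  have hkk : k = k' := by
    have : (k : ℤ) * v.v e = k' * v.v e := by rw [hk, hk']
    have := mul_right_cancel₀ he.ne' this
    exact_mod_cast this
  subst hkk
  set c := U.coeff 0 / U'.coeff 0 with hc
  have h2 : Ge v (n + 1) (x - algebraMap ℂ L c * y) := by
    have e1 : x - algebraMap ℂ L c * y = (x - e ^ k * aeval e U) -
        algebraMap ℂ L c * (y - e ^ k * aeval e U') +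
        e ^ k * (aeval e (U - C c * U')) := by
      rw [map_sub, map_mul, aeval_C]
      ring
    rw [e1]
    refine (hGx.sub (hGy.smul c)).add ?_
    have h3 : (U - C c * U').coeff 0 = 0 := by
      rw [coeff_sub, coeff_C_mul, hc, div_mul_cancel₀ _ hU', sub_self]
    have h4 : aeval e (U - C c * U') = e * aeval e (U - C c * U').divX := by
      conv_lhs => rw [← divX_mul_X_add (U - C c * U')]
      rw [h3, C_0, add_zero, map_mul, aeval_X]
      ring
    rw [h4]
    have h5 : Ge v n (e ^ k) := Or.inr (by rw [v.map_pow he0, hk])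
    have h6 : Ge v 1 (e * aeval e (U - C c * U').divX) := by
      have h7 : Ge v 1 e := Or.inr he
      have h8 : Ge v 0 (aeval e (U - C c * U').divX) := v.int_aeval (Or.inr he.le) _
      have := h7.mul h8
      rwa [add_zero] at this
    exact h5.mul h6
  -- contradiction
  have h3 := hτ (X - C c) (X_sub_C_ne_zero c)
  rw [map_sub, aeval_X, aeval_C] at h3
  have h4 : τ - algebraMap ℂ L c = (x - algebraMap ℂ L c * y) / y := by
    rw [h1]; field_simp
  have h5 : x - algebraMap ℂ L c * y ≠ 0 := by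
    intro h
    rw [h4, h, zero_div] at h3
    exact h3.1 rfl
  have h6 := h3.2
  rw [h4, v.map_div h5 hy0] at h6
  have h7 := h2.resolve_left h5
  omega

/-- ITER. -/
theorem iter (v : DVal L) (O : Subalgebra ℂ L) [IsLocalRing O]
    (hfrac : ∀ z : L, ∃ a ∈ O, ∃ b ∈ O, b ≠ 0 ∧ z = a / b)
    (hres : ∀ x : O, ∃ c : ℂ, x - algebraMap ℂ O c ∈ maximalIdeal O)
    (hpos : ∀ x ∈ maximalIdeal O, v.Pos (x : L))
    (d : O → O) (hadd : ∀ a b, d (a + b) = d a + d b)
    (hmul : ∀ a b, d (a * b) = a * d b + b * d a) (hc : ∀ c : ℂ, d (algebraMap ℂ O c) = 0)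
    (hd : ∀ x : O, x ≠ 0 → d x ≠ 0 → v.v (x : L) + 1 ≤ v.v (d x : L))
    (e s t : O) (hm : maximalIdeal O = Ideal.span {e, s, t}) (he0 : e ≠ 0) (he : d e = 0)
    (α β : ℂ) (hα : α ≠ 0) (hβ : β ≠ 0)
    (hs : d s - algebraMap ℂ O α * s ∈ maximalIdeal O ^ 2)
    (ht : d t - algebraMap ℂ O β * t ∈ maximalIdeal O ^ 2) : False := by
  have hge1 : ∀ x ∈ maximalIdeal O, Ge v 1 (x : L) := by
    intro x hx
    rcases hpos x hx with h | h
    · exact Or.inl h
    · exact Or.inr h
  have hge0 : ∀ x : O, Ge v 0 (x : L) := by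
    intro x
    obtain ⟨c, h⟩ := hres x
    have e1 : (x : L) = ((x - algebraMap ℂ O c : O) : L) + algebraMap ℂ L c := by
      push_cast; ring
    rw [e1]
    exact ((hge1 _ h).mono (by norm_num)).add (ge_const v c)
  have hem : e ∈ maximalIdeal O := by rw [hm]; exact Ideal.subset_span (by simp)
  have hsm : s ∈ maximalIdeal O := by rw [hm]; exact Ideal.subset_span (by simp)
  have htm : t ∈ maximalIdeal O := by rw [hm]; exact Ideal.subset_span (by simp)
  have he0' : (e : L) ≠ 0 := fun h => he0 (Subtype.ext h)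
  have hepos : 0 < v.v (e : L) := (hge1 e hem).resolve_left he0'
  have hdP : ∀ P : ℂ[X], d (aeval e P) = 0 := by
    intro P
    have hd0 : d 0 = 0 := by
      have := hc 0
      rwa [map_zero] at this
    have hpow : ∀ n : ℕ, d (e ^ n) = 0 := by
      intro n
      induction n with
      | zero => rw [pow_zero]; have := hc 1; rwa [map_one] at this
      | succ n ih => rw [pow_succ, hmul, he, ih]; simp
    induction P using Polynomial.induction_on' with
    | add p q hp hq => rw [map_add, hadd, hp, hq, add_zero]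
    | monomial n a => rw [aeval_monomial, hmul, hc, hpow]; simp
  have hdge : ∀ (n : ℤ) (x : O), Ge v n (x : L) → Ge v (n + 1) (d x : L) := by
    intro n x hx
    by_cases h0 : x = 0
    · left
      have := hc 0
      rw [map_zero] at this
      rw [h0, this]
      rfl
    by_cases h1 : d x = 0
    · left; rw [h1]; rfl
    right
    have h2 := hd x h0 h1
    have h3 := hx.resolve_left fun h => h0 (Subtype.ext h)
    omega
  -- the set `C[e] + J_n`
  let W : ℕ → O → Prop := fun n x => ∃ P : ℂ[X], Ge v n ((x - aeval e P : O) : L)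
  have hWadd : ∀ n x y, W n x → W n y → W n (x + y) := by
    rintro n x y ⟨P, hP⟩ ⟨Q, hQ⟩
    refine ⟨P + Q, ?_⟩
    have e1 : ((x + y - aeval e (P + Q) : O) : L) =
        ((x - aeval e P : O) : L) + ((y - aeval e Q : O) : L) := by
      rw [map_add]; push_cast; ring
    rw [e1]
    exact hP.add hQ
  have hWc : ∀ n (c : ℂ) x, W n x → W n (algebraMap ℂ O c * x) := by
    rintro n c x ⟨P, hP⟩
    refine ⟨C c * P, ?_⟩
    have e1 : ((algebraMap ℂ O c * x - aeval e (C c * P) : O) : L) =
        algebraMap ℂ L c * ((x - aeval e P : O) : L) := by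
      rw [map_mul, aeval_C]; push_cast
      ring
    rw [e1]
    exact hP.smul c
  have hWP : ∀ n (P : ℂ[X]), W n (aeval e P) := by
    intro n P
    exact ⟨P, by rw [sub_self]; exact ge_zero v _⟩
  have hWJ : ∀ (n : ℕ) (x : O), Ge v n (x : L) → W n x := by
    intro n x hx
    exact ⟨0, by rw [map_zero, sub_zero]; exact hx⟩
  -- products of elements of the maximal ideal
  have hWmul : ∀ (n : ℕ), 1 ≤ n → ∀ x y, x ∈ maximalIdeal O → W (n + 1) x → W n y →
      W (n + 1) (x * y) := by
    rintro n hn x y hx ⟨P, hP⟩ ⟨Q, hQ⟩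
    have hPv : Ge v 1 ((aeval e P : O) : L) := by
      have e1 : ((aeval e P : O) : L) = (x : L) - ((x - aeval e P : O) : L) := by
        push_cast; ring
      rw [e1]
      exact (hge1 x hx).sub (hP.mono (by push_cast; omega))
    refine ⟨P * Q, ?_⟩
    have e2 : ((x * y - aeval e (P * Q) : O) : L) =
        ((x - aeval e P : O) : L) * (y : L) + ((aeval e P : O) : L) * ((y - aeval e Q : O) : L) := by
      rw [map_mul]; push_cast; ring
    rw [e2]
    refine Ge.add ?_ ?_
    · have := hP.mul (hge0 y)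
      rwa [add_zero] at this
    · have := hPv.mul hQ
      exact this.mono (by push_cast; omega)
  have hWmm : ∀ (n : ℕ), 1 ≤ n → (∀ x, W n x) → ∀ x y, x ∈ maximalIdeal O →
      y ∈ maximalIdeal O → W (n + 1) (x * y) := by
    intro n hn hall x y hx hy
    obtain ⟨P, hP⟩ := hall x
    obtain ⟨Q, hQ⟩ := hall y
    have hPv : Ge v 1 ((aeval e P : O) : L) := by
      have e1 : ((aeval e P : O) : L) = (x : L) - ((x - aeval e P : O) : L) := by
        push_cast; ring
      rw [e1]
      exact (hge1 x hx).sub (hP.mono (by exact_mod_cast hn))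
    refine ⟨P * Q, ?_⟩
    have e2 : ((x * y - aeval e (P * Q) : O) : L) =
        ((x - aeval e P : O) : L) * (y : L) + ((aeval e P : O) : L) * ((y - aeval e Q : O) : L) := by
      rw [map_mul]; push_cast; ring
    rw [e2]
    refine Ge.add ?_ ?_
    · have := hP.mul (hge1 y hy)
      exact this.mono (by push_cast; omega)
    · have := hPv.mul hQ
      exact this.mono (by push_cast; omega)
  have hWm2 : ∀ (n : ℕ), 1 ≤ n → (∀ x, W n x) → ∀ x ∈ maximalIdeal O ^ 2, W (n + 1) x := by
    intro n hn hall x hx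
    rw [pow_two] at hx
    refine Submodule.mul_induction_on hx ?_ ?_
    · intro a ha b hb
      exact hWmm n hn hall a b ha hb
    · intro a b ha hb
      exact hWadd _ _ _ ha hb
  -- the generators
  have hgen : ∀ (n : ℕ), 1 ≤ n → (∀ x, W n x) → ∀ (s : O) (α : ℂ), α ≠ 0 →
      d s - algebraMap ℂ O α * s ∈ maximalIdeal O ^ 2 → W (n + 1) s := by
    intro n hn hall s α hα hs
    obtain ⟨P, hP⟩ := hall s
    -- s' = s - P(e)
    have h1 : d s = d (s - aeval e P) := by
      have := hadd (s - aeval e P) (aeval e P)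
      rw [sub_add_cancel, hdP, add_zero] at this
      exact this
    have h2 : Ge v ((n : ℤ) + 1) (d s : L) := by rw [h1]; exact hdge n _ hP
    have h3 : W (n + 1) (d s) := hWJ _ _ (by exact_mod_cast h2)
    have h4 : s = algebraMap ℂ O α⁻¹ * (d s + algebraMap ℂ O (-1) *
        (d s - algebraMap ℂ O α * s)) := by
      have h5 : algebraMap ℂ O α⁻¹ * algebraMap ℂ O α = 1 := by
        rw [← map_mul, inv_mul_cancel₀ hα, map_one]
      rw [map_neg, map_one]
      linear_combination (-s) * h5
    rw [h4]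
    exact hWc _ _ _ (hWadd _ _ _ h3 (hWc _ _ _ (hWm2 n hn hall _ hs)))
  have hmain : ∀ n : ℕ, 1 ≤ n → ∀ x, W n x := by
    intro n hn
    induction n, hn using Nat.le_induction with
    | base =>
      intro x
      obtain ⟨c, h⟩ := hres x
      refine ⟨C c, ?_⟩
      rw [aeval_C]
      exact_mod_cast hge1 _ h
    | succ n hn ih =>
      intro x
      obtain ⟨c, h⟩ := hres x
      rw [hm, Ideal.mem_span_insert] at h
      obtain ⟨a, z, hz, h1⟩ := h
      rw [Ideal.mem_span_pair] at hz
      obtain ⟨b, b', h2⟩ := hz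
      have h3 : x = aeval e (C c) + (e * a + (s * b + t * b')) := by
        rw [aeval_C]
        have : x = algebraMap ℂ O c + (x - algebraMap ℂ O c) := by ring
        rw [this, h1, ← h2]
        ring
      rw [h3]
      refine hWadd _ _ _ (hWP _ _) (hWadd _ _ _ ?_ (hWadd _ _ _ ?_ ?_))
      · refine hWmul n hn e a hem ?_ (ih a)
        have := hWP (n + 1) X
        rwa [aeval_X] at this
      · exact hWmul n hn s b hsm (hgen n hn ih s α hα hs) (ih b)
      · exact hWmul n hn t b' htm (hgen n hn ih t β hβ ht) (ih b')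
  refine no_res v O hfrac (fun x hx => hge0 ⟨x, hx⟩) (e : L) he0' hepos ?_
  intro n x hx
  obtain ⟨P, hP⟩ := hmain (n + 1) (Nat.succ_pos n) ⟨x, hx⟩
  refine ⟨P, ?_⟩
  have e1 : (((⟨x, hx⟩ : O) - aeval e P : O) : L) = x - aeval (e : L) P := by
    push_cast
    rfl
  rw [e1] at hP
  exact hP.mono (by push_cast; omega)

end H98

end

end LCY
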