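import Pool.Agent.Helper11.LCY.State

/-! Local rings of points (MP_f7e214_ag): the maximal ideal, A11, centres of valuations. -/

open Polynomial

namespace LCY

noncomputable section

variable {L : Type} [Field L] [Algebra ℂ L]

/-- `z` lies in the maximal ideal of the local ring of the origin of `P`. -/
def Coord.Mx (P : Coord L) (z : L) : Prop :=
  ∃ f g : ℂ[X][X], cf f (0, 0) = 0 ∧ cf g (0, 0) ≠ 0 ∧ z = ev P.x P.y f / ev P.x P.y g

namespace H98

theorem cf_mul0 (f g : ℂ[X][X]) : cf (f * g) (0, 0) = cf f (0, 0) * cf g (0, 0) := by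
  unfold cf
  rw [mul_coeff_zero, mul_coeff_zero]

theorem cf_add0 (f g : ℂ[X][X]) : cf (f + g) (0, 0) = cf f (0, 0) + cf g (0, 0) := by
  simp [cf]

theorem cf_sub0 (f g : ℂ[X][X]) : cf (f - g) (0, 0) = cf f (0, 0) - cf g (0, 0) := by
  simp [cf]

theorem cf_CC0 (c : ℂ) : cf (C (C c)) (0, 0) = c := by
  simp [cf]

theorem cf_one0 : cf 1 (0, 0) = 1 := by
  simp [cf]

theorem ne_of_cf {g : ℂ[X][X]} (h : cf g (0, 0) ≠ 0) : g ≠ 0 := by
  rintro rfl
  exact h (H62.cf_zero _)

theorem mx_loc {P : Coord L} {z : L} (h : P.Mx z) : z ∈ P.loc := by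
  obtain ⟨f, g, -, hg, hz⟩ := h
  exact ⟨f, g, hg, hz⟩

theorem mx_zero (P : Coord L) : P.Mx 0 := ⟨0, 1, by simp [cf], by simp [cf], by simp⟩

theorem mx_x (P : Coord L) : P.Mx P.x :=
  ⟨C X, 1, by simp [cf], by simp [cf], by rw [ev_CX, map_one, div_one]⟩

theorem mx_y (P : Coord L) : P.Mx P.y :=
  ⟨X, 1, by simp [cf], by simp [cf], by rw [ev_X, map_one, div_one]⟩

theorem mx_add {P : Coord L} {a b : L} (ha : P.Mx a) (hb : P.Mx b) : P.Mx (a + b) := by
  obtain ⟨f, g, hf, hg, rfl⟩ := ha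
  obtain ⟨f', g', hf', hg', rfl⟩ := hb
  refine ⟨f * g' + f' * g, g * g', ?_, ?_, ?_⟩
  · rw [cf_add0, cf_mul0, cf_mul0, hf, hf']; ring
  · rw [cf_mul0]; exact mul_ne_zero hg hg'
  · rw [map_add, map_mul, map_mul, map_mul,
      div_add_div _ _ (P.ne (ne_of_cf hg)) (P.ne (ne_of_cf hg'))]
    ring

theorem mx_mul {P : Coord L} {a b : L} (ha : P.Mx a) (hb : b ∈ P.loc) : P.Mx (a * b) := by
  obtain ⟨f, g, hf, hg, rfl⟩ := ha
  obtain ⟨f', g', hg', rfl⟩ := hb
  refine ⟨f * f', g * g', ?_, ?_, ?_⟩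
  · rw [cf_mul0, hf, zero_mul]
  · rw [cf_mul0]; exact mul_ne_zero hg hg'
  · rw [map_mul, map_mul, div_mul_div_comm]

theorem mx_mul' {P : Coord L} {a b : L} (ha : a ∈ P.loc) (hb : P.Mx b) : P.Mx (a * b) := by
  rw [mul_comm]; exact mx_mul hb ha

theorem mx_neg {P : Coord L} {a : L} (ha : P.Mx a) : P.Mx (-a) := by
  have h := mx_mul ha (b := -1) (P.loc.neg_mem P.loc.one_mem)
  rwa [mul_neg, mul_one] at h

theorem mx_sub {P : Coord L} {a b : L} (ha : P.Mx a) (hb : P.Mx b) : P.Mx (a - b) := by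
  rw [sub_eq_add_neg]; exact mx_add ha (mx_neg hb)

theorem mx_sum {P : Coord L} {ι : Type} (s : Finset ι) (f : ι → L) (h : ∀ i ∈ s, P.Mx (f i)) :
    P.Mx (∑ i ∈ s, f i) := by
  classical
  induction s using Finset.induction_on with
  | empty => rw [Finset.sum_empty]; exact mx_zero P
  | insert a s ha ih =>
    rw [Finset.sum_insert ha]
    exact mx_add (h a (Finset.mem_insert_self a s))
      (ih fun i hi => h i (Finset.mem_insert_of_mem hi))

theorem mx_pow {P : Coord L} {a : L} (ha : P.Mx a) {n : ℕ} (hn : n ≠ 0) : P.Mx (a ^ n) := by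
  obtain ⟨m, rfl⟩ := Nat.exists_eq_succ_of_ne_zero hn
  rw [pow_succ']
  exact mx_mul ha (P.loc.pow_mem (mx_loc ha) m)

/-- Every element of the local ring is congruent to a constant. -/
theorem exists_residue {P : Coord L} {z : L} (h : z ∈ P.loc) :
    ∃ c : ℂ, P.Mx (z - algebraMap ℂ L c) := by
  obtain ⟨f, g, hg, rfl⟩ := h
  refine ⟨cf f (0, 0) / cf g (0, 0), f - C (C (cf f (0, 0) / cf g (0, 0))) * g, g, ?_, hg, ?_⟩
  · rw [cf_sub0, cf_mul0, cf_CC0, div_mul_cancel₀ _ hg, sub_self]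
  · rw [map_sub, map_mul, ev_CC, sub_div, mul_div_cancel_right₀ _ (P.ne (ne_of_cf hg))]

/-- An element congruent to a nonzero constant is a unit. -/
theorem unit_of_mx {P : Coord L} {z : L} {c : ℂ} (hc : c ≠ 0)
    (h : P.Mx (z - algebraMap ℂ L c)) : z ≠ 0 ∧ z ∈ P.loc ∧ z⁻¹ ∈ P.loc := by
  obtain ⟨f, g, hf, hg, hz⟩ := h
  have hg' := P.ne (ne_of_cf hg)
  have h1 : z = ev P.x P.y (f + C (C c) * g) / ev P.x P.y g := by
    rw [map_add, map_mul, ev_CC, add_div, mul_div_cancel_right₀ _ hg', ← hz]; ring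
  have h2 : cf (f + C (C c) * g) (0, 0) ≠ 0 := by
    rw [cf_add0, cf_mul0, cf_CC0, hf, zero_add]
    exact mul_ne_zero hc hg
  refine ⟨?_, ⟨_, g, hg, h1⟩, ⟨g, _, h2, ?_⟩⟩
  · rw [h1]; exact div_ne_zero (P.ne (ne_of_cf h2)) hg'
  · rw [h1, inv_div]

/-- Elements of the maximal ideal are not invertible. -/
theorem mx_not_inv {P : Coord L} {z : L} (h : P.Mx z) (hz : z ≠ 0) : z⁻¹ ∉ P.loc := by
  rintro ⟨f', g', hg', h'⟩
  obtain ⟨f, g, hf, hg, rfl⟩ := h
  have e1 := P.ne (ne_of_cf hg)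
  have e2 := P.ne (ne_of_cf hg')
  have h1 : f * f' = g * g' := by
    rw [← sub_eq_zero]
    apply P.inj
    rw [map_sub, map_mul, map_mul]
    have e3 : ev P.x P.y f ≠ 0 := fun h0 => hz (by rw [h0, zero_div])
    rw [inv_div] at h'
    field_simp at h'
    rw [sub_eq_zero]
    linear_combination -h'
  have h2 := congrArg (fun p => cf p (0, 0)) h1
  simp only [cf_mul0, hf, zero_mul] at h2
  exact mul_ne_zero hg hg' h2.symm

theorem mx_iff {P : Coord L} {z : L} : P.Mx z ↔ z ∈ P.loc ∧ (z = 0 ∨ z⁻¹ ∉ P.loc) := by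
  constructor
  · intro h
    refine ⟨mx_loc h, ?_⟩
    by_cases hz : z = 0
    · exact Or.inl hz
    · exact Or.inr (mx_not_inv h hz)
  · rintro ⟨h1, h2⟩
    rcases h2 with h2 | h2
    · rw [h2]; exact mx_zero P
    obtain ⟨c, hc⟩ := exists_residue h1
    by_cases hc0 : c = 0
    · rwa [hc0, map_zero, sub_zero] at hc
    · exact absurd (unit_of_mx hc0 hc).2.2 h2

/-- The maximal ideal is intrinsic. -/
theorem mx_congr {P Q : Coord L} (h : P.loc = Q.loc) {z : L} : P.Mx z ↔ Q.Mx z := by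
  rw [mx_iff, mx_iff, h]

/-- The value of a polynomial at two elements of the maximal ideal. -/
theorem mx_ev {P : Coord L} {a b : L} (ha : P.Mx a) (hb : P.Mx b) (f : ℂ[X][X]) :
    P.Mx (ev a b f - algebraMap ℂ L (cf f (0, 0))) := by
  classical
  have key : ev a b f - algebraMap ℂ L (cf f (0, 0)) =
      ∑ e ∈ (bs f).erase (0, 0), algebraMap ℂ L (cf f e) * a ^ e.1 * b ^ e.2 := by
    rw [ev_eq_sum]
    by_cases h : (0, 0) ∈ bs f
    · rw [← Finset.add_sum_erase _ _ h]
      simp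
    · rw [Finset.erase_eq_of_notMem h]
      have : cf f (0, 0) = 0 := by
        by_contra h0; exact h (mem_bs.2 h0)
      rw [this, map_zero, sub_zero]
  rw [key]
  refine mx_sum _ _ fun e he => ?_
  have hne : e ≠ (0, 0) := Finset.ne_of_mem_erase he
  rw [mul_assoc]
  refine mx_mul' (P.loc.algebraMap_mem _) ?_
  by_cases h1 : e.1 = 0
  · have h2 : e.2 ≠ 0 := fun h2 => hne (Prod.ext h1 h2)
    exact mx_mul' (P.loc.pow_mem (mx_loc ha) _) (mx_pow hb h2)
  · exact mx_mul (mx_pow ha h1) (P.loc.pow_mem (mx_loc hb) _)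

/-- Domination: inclusion of local rings. -/
theorem loc_le {P Q : Coord L} (hx : P.Mx Q.x) (hy : P.Mx Q.y) : Q.loc ≤ P.loc := by
  rintro z ⟨f, g, hg, rfl⟩
  have h1 := mx_ev hx hy f
  have h2 := mx_ev hx hy g
  have h3 := (unit_of_mx hg h2).2.2
  have h4 : ev Q.x Q.y f ∈ P.loc := by
    have := P.loc.add_mem (mx_loc h1) (P.loc.algebraMap_mem (cf f (0, 0)))
    rwa [sub_add_cancel] at this
  rw [div_eq_mul_inv]
  exact P.loc.mul_mem h4 h3

theorem mx_le {P Q : Coord L} (hx : P.Mx Q.x) (hy : P.Mx Q.y) {z : L} (h : Q.Mx z) : P.Mx z := by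
  obtain ⟨f, g, hf, hg, rfl⟩ := h
  have h1 := mx_ev hx hy f
  have h2 := mx_ev hx hy g
  rw [hf, map_zero, sub_zero] at h1
  rw [div_eq_mul_inv]
  exact mx_mul h1 (unit_of_mx hg h2).2.2

end H98

open H98

/-- A11. Equality of the local rings of two pairs of coordinates. -/
theorem loc_eq_iff {P P' : Coord L} : P.loc = P'.loc ↔
    (P.Mx P'.x ∧ P.Mx P'.y) ∧ (P'.Mx P.x ∧ P'.Mx P.y) := by
  constructor
  · intro h
    exact ⟨⟨(mx_congr h).2 (mx_x P'), (mx_congr h).2 (mx_y P')⟩,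
      ⟨(mx_congr h).1 (mx_x P), (mx_congr h).1 (mx_y P)⟩⟩
  · rintro ⟨⟨h1, h2⟩, h3, h4⟩
    exact le_antisymm (loc_le h3 h4) (loc_le h1 h2)

namespace H98

/-! ### Valuations and local rings -/

/-- `v` is nonnegative on `R`. -/
def Nn (R : Subalgebra ℂ L) (v : DVal L) : Prop := ∀ z ∈ R, v.Int z

theorem nn_unit {R : Subalgebra ℂ L} {v : DVal L} (h : Nn R v) {z : L} (hz : z ≠ 0)
    (h1 : z ∈ R) (h2 : z⁻¹ ∈ R) : v.v z = 0 := by
  have h3 := (h z h1).resolve_left hz
  have h4 := (h _ h2).resolve_left (inv_ne_zero hz)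
  rw [v.map_inv hz] at h4
  omega

theorem centred_mx {P : Coord L} {v : DVal L} (h : Centred P.loc v) {z : L} (hz : P.Mx z) :
    v.Pos z := by
  by_cases h0 : z = 0
  · exact Or.inl h0
  · exact Or.inr (h.2 z (mx_loc hz) h0 (mx_not_inv hz h0))

theorem centred_iff {P : Coord L} {v : DVal L} :
    Centred P.loc v ↔ 0 < v.v P.x ∧ 0 < v.v P.y := by
  constructor
  · intro h
    exact ⟨(centred_mx h (mx_x P)).resolve_left P.x_ne,
      (centred_mx h (mx_y P)).resolve_left P.y_ne⟩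
  · rintro ⟨hx, hy⟩
    have h0 : ∀ f : ℂ[X][X], v.Pos (ev P.x P.y f - algebraMap ℂ L (cf f (0, 0))) := by
      intro f
      classical
      have key : ev P.x P.y f - algebraMap ℂ L (cf f (0, 0)) =
          ∑ e ∈ (bs f).erase (0, 0), algebraMap ℂ L (cf f e) * P.x ^ e.1 * P.y ^ e.2 := by
        rw [ev_eq_sum]
        by_cases h : (0, 0) ∈ bs f
        · rw [← Finset.add_sum_erase _ _ h]
          simp
        · rw [Finset.erase_eq_of_notMem h]
          have : cf f (0, 0) = 0 := by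
            by_contra h0; exact h (mem_bs.2 h0)
          rw [this, map_zero, sub_zero]
      rw [key]
      have hs : ∀ (s : Finset (ℕ × ℕ)), (∀ e ∈ s, e ≠ (0, 0)) →
          v.Pos (∑ e ∈ s, algebraMap ℂ L (cf f e) * P.x ^ e.1 * P.y ^ e.2) := by
        intro s
        induction s using Finset.induction_on with
        | empty => intro _; rw [Finset.sum_empty]; exact Or.inl rfl
        | insert a s ha ih =>
          intro hs
          rw [Finset.sum_insert ha]
          refine v.pos_add ?_ (ih fun e he => hs e (Finset.mem_insert_of_mem he))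
          have hne := hs a (Finset.mem_insert_self a s)
          by_cases hc : cf f a = 0
          · left; rw [hc, map_zero, zero_mul, zero_mul]
          right
          have e1 : algebraMap ℂ L (cf f a) ≠ 0 := by simpa using hc
          rw [v.map_mul _ _ (mul_ne_zero e1 (pow_ne_zero _ P.x_ne)) (pow_ne_zero _ P.y_ne),
            v.map_mul _ _ e1 (pow_ne_zero _ P.x_ne), v.map_const _ hc, v.map_pow P.x_ne,
            v.map_pow P.y_ne]
          by_cases h1 : a.1 = 0
          · have h2 : 0 < a.2 := Nat.pos_of_ne_zero fun h2 => hne (Prod.ext h1 h2)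
            have h3 : (0 : ℤ) < a.2 := by exact_mod_cast h2
            have h4 : (0 : ℤ) ≤ a.1 := by positivity
            nlinarith [mul_pos h3 hy, mul_nonneg h4 hx.le]
          · have h3 : (0 : ℤ) < a.1 := by exact_mod_cast Nat.pos_of_ne_zero h1
            have h4 : (0 : ℤ) ≤ a.2 := by positivity
            nlinarith [mul_pos h3 hx, mul_nonneg h4 hy.le]
      exact hs _ fun e he => Finset.ne_of_mem_erase he
    have hu : ∀ g : ℂ[X][X], cf g (0, 0) ≠ 0 → v.v (ev P.x P.y g) = 0 := by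
      intro g hg
      have h1 : algebraMap ℂ L (cf g (0, 0)) ≠ 0 := by simpa using hg
      have h2 := v.val_add_pos h1 (v.map_const _ hg) (h0 g)
      rw [add_sub_cancel] at h2
      exact h2.2
    have hp : ∀ f : ℂ[X][X], cf f (0, 0) = 0 → v.Pos (ev P.x P.y f) := by
      intro f hf
      have := h0 f
      rwa [hf, map_zero, sub_zero] at this
    have hpos : ∀ z, P.Mx z → v.Pos z := by
      rintro z ⟨f, g, hf, hg, rfl⟩
      rcases hp f hf with h | h
      · left; rw [h, zero_div]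
      · by_cases h' : ev P.x P.y f = 0
        · left; rw [h', zero_div]
        right
        rw [v.map_div h' (P.ne (ne_of_cf hg)), hu g hg, sub_zero]
        exact h
    constructor
    · intro z hz
      obtain ⟨c, hc⟩ := exists_residue hz
      have := v.int_add (DVal.Pos.int (hpos _ hc)) (v.int_const c)
      rwa [sub_add_cancel] at this
    · intro z hz h0 h1
      exact (hpos z (mx_iff.2 ⟨hz, Or.inr h1⟩)).resolve_left h0

/-- Either the centre is the point or the curve of `v` passes through it. -/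
theorem through_or_centred {R : Subalgebra ℂ L} {v : DVal L} (h : Nn R v) :
    Through R v ∨ Centred R v := by
  by_cases hc : ∃ z ∈ R, z⁻¹ ∉ R ∧ z ≠ 0 ∧ v.v z = 0
  · exact Or.inl ⟨h, hc⟩
  · right
    refine ⟨h, fun z hz h0 h1 => ?_⟩
    push Not at hc
    have h2 := (h z hz).resolve_left h0
    have h3 := hc z hz h1 h0
    omega

theorem centred_nn {R : Subalgebra ℂ L} {v : DVal L} (h : Centred R v) : Nn R v := h.1

end H98

end

end LCY
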