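import Pool.Agent.Helper48.LCY.Top

/-! The order of a rational function at an irreducible polynomial (MP_f7e214_ag). -/

open Polynomial WithZero

namespace LCY

noncomputable section

variable {K : Type} [Field K]

/-- The prime of the polynomial ring generated by an irreducible polynomial. -/
def hPrime (P : K[X]) (hP : Irreducible P) : IsDedekindDomain.HeightOneSpectrum K[X] :=
  ⟨Ideal.span {P}, (Ideal.span_singleton_prime hP.ne_zero).2 hP.prime, by
    rw [Ne, Ideal.span_singleton_eq_bot]; exact hP.ne_zero⟩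

/-- The order at `P`. -/
def ordP (P : K[X]) (hP : Irreducible P) (r : RatFunc K) : ℤ :=
  - log ((hPrime P hP).valuation (RatFunc K) r)

variable {P : K[X]} {hP : Irreducible P}

theorem ordP_ne {a : RatFunc K} (ha : a ≠ 0) :
    (hPrime P hP).valuation (RatFunc K) a ≠ 0 :=
  (Valuation.ne_zero_iff _).2 ha

theorem ordP_mul {a b : RatFunc K} (ha : a ≠ 0) (hb : b ≠ 0) :
    ordP P hP (a * b) = ordP P hP a + ordP P hP b := by
  unfold ordP
  rw [map_mul, log_mul (ordP_ne ha) (ordP_ne hb)]
  ring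

theorem ordP_inv (a : RatFunc K) : ordP P hP a⁻¹ = - ordP P hP a := by
  unfold ordP
  rw [map_inv₀, log_inv]

theorem ordP_add {a b : RatFunc K} (ha : a ≠ 0) (hb : b ≠ 0) (hab : a + b ≠ 0) :
    min (ordP P hP a) (ordP P hP b) ≤ ordP P hP (a + b) := by
  unfold ordP
  have h := Valuation.map_add ((hPrime P hP).valuation (RatFunc K)) a b
  rcases le_max_iff.1 h with h | h
  · rw [← log_le_log (ordP_ne hab) (ordP_ne ha)] at h
    exact (min_le_left _ _).trans (by omega)
  · rw [← log_le_log (ordP_ne hab) (ordP_ne hb)] at h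
    exact (min_le_right _ _).trans (by omega)

theorem ordP_poly_nonneg (a : K[X]) : 0 ≤ ordP P hP (algebraMap K[X] (RatFunc K) a) := by
  by_cases ha : a = 0
  · subst ha; simp [ordP]
  have ha' : algebraMap K[X] (RatFunc K) a ≠ 0 :=
    fun h => ha (IsFractionRing.injective K[X] (RatFunc K) (by rw [h, map_zero]))
  unfold ordP
  have h1 := (hPrime P hP).valuation_le_one (K := RatFunc K) a
  rw [← log_le_log (ordP_ne ha') one_ne_zero, log_one] at h1
  omega

theorem ordP_poly_pos_iff {a : K[X]} (ha : a ≠ 0) :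
    0 < ordP P hP (algebraMap K[X] (RatFunc K) a) ↔ P ∣ a := by
  have ha' : algebraMap K[X] (RatFunc K) a ≠ 0 :=
    fun h => ha (IsFractionRing.injective K[X] (RatFunc K) (by rw [h, map_zero]))
  unfold ordP
  have h1 : 0 < - log ((hPrime P hP).valuation (RatFunc K) (algebraMap K[X] (RatFunc K) a)) ↔
      (hPrime P hP).valuation (RatFunc K) (algebraMap K[X] (RatFunc K) a) < 1 := by
    rw [← log_lt_log (ordP_ne ha') one_ne_zero, log_one]
    omega
  rw [h1, IsDedekindDomain.HeightOneSpectrum.valuation_lt_one_iff_mem]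
  show a ∈ Ideal.span {P} ↔ _
  rw [Ideal.mem_span_singleton]

theorem ordP_poly_zero {a : K[X]} (ha : ¬ P ∣ a) :
    ordP P hP (algebraMap K[X] (RatFunc K) a) = 0 := by
  have ha0 : a ≠ 0 := fun h => ha (h ▸ dvd_zero P)
  have h1 := ordP_poly_nonneg (P := P) (hP := hP) a
  have h2 : ¬ 0 < ordP P hP (algebraMap K[X] (RatFunc K) a) := by
    rw [ordP_poly_pos_iff ha0]; exact ha
  omega

theorem ordP_C {c : K} (hc : c ≠ 0) : ordP P hP (algebraMap K (RatFunc K) c) = 0 := by
  have h : algebraMap K (RatFunc K) c = algebraMap K[X] (RatFunc K) (C c) := by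
    rw [RatFunc.algebraMap_eq_C, ← RatFunc.algebraMap_C]
  rw [h]
  refine ordP_poly_zero fun hd => ?_
  have h2 : IsUnit (C c : K[X]) := (IsUnit.mk0 c hc).map C
  exact hP.not_isUnit (isUnit_of_dvd_unit hd h2)

/-- Regularity at `P` is nonnegativity of the order. -/
theorem regAtT_iff {r : RatFunc K} (hr : r ≠ 0) : RegAtT P r ↔ 0 ≤ ordP P hP r := by
  constructor
  · rintro ⟨a, b, hb, h⟩
    have hb0 : b ≠ 0 := fun h => hb (h ▸ dvd_zero P)
    have hb' : algebraMap K[X] (RatFunc K) b ≠ 0 :=
      fun h => hb0 (IsFractionRing.injective K[X] (RatFunc K) (by rw [h, map_zero]))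
    have ha' : algebraMap K[X] (RatFunc K) a ≠ 0 := by
      intro h2; apply hr; rw [h, h2, zero_div]
    rw [h, div_eq_mul_inv, ordP_mul ha' (inv_ne_zero hb'), ordP_inv, ordP_poly_zero hb]
    have := ordP_poly_nonneg (P := P) (hP := hP) a
    omega
  · intro h
    refine ⟨r.num, r.denom, ?_, (RatFunc.num_div_denom r).symm⟩
    intro hd
    have hd' : algebraMap K[X] (RatFunc K) r.denom ≠ 0 :=
      fun h => r.denom_ne_zero (IsFractionRing.injective K[X] (RatFunc K) (by rw [h, map_zero]))
    have hn0 : r.num ≠ 0 := RatFunc.num_ne_zero hr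
    have hn' : algebraMap K[X] (RatFunc K) r.num ≠ 0 :=
      fun h => hn0 (IsFractionRing.injective K[X] (RatFunc K) (by rw [h, map_zero]))
    have hn : ¬ P ∣ r.num := by
      intro hn
      have := (RatFunc.isCoprime_num_denom r).isUnit_of_dvd' hn hd
      exact hP.not_isUnit this
    have h1 : r = algebraMap K[X] (RatFunc K) r.num / algebraMap K[X] (RatFunc K) r.denom :=
      (RatFunc.num_div_denom r).symm
    rw [h1, div_eq_mul_inv, ordP_mul hn' (inv_ne_zero hd'), ordP_inv, ordP_poly_zero hn] at h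
    have h2 := (ordP_poly_pos_iff (P := P) (hP := hP) r.denom_ne_zero).2 hd
    omega

theorem regAtT_zero (hP : Irreducible P) : RegAtT P (0 : RatFunc K) :=
  ⟨0, 1, fun hd => hP.not_isUnit (isUnit_of_dvd_one hd), by simp⟩

end

end LCY
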